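import Pool.Agent.H708R2.EulerModes.Fourier

/-!
# Bessel's inequality on `𝕋³`
-/

open MeasureTheory Set
open scoped ENNReal NNReal Topology Pointwise ContDiff ComplexConjugate

namespace Pool.Agent.H708R2.EulerModes

open Pool.Agent.H708R2.EulerSign

lemma fine_one {N : ℕ} : Fine N (fun _ : V => (1 : ℝ)) :=
  ⟨continuous_const, fun _ _ => rfl, fun _ _ => rfl, by simp [Measure.real]⟩

lemma cos_moment (m : Fin 3 → ℤ) :
    ∫ x in Dom, Real.cos (ph m x) = if m = 0 then (volume Dom).toReal else 0 := by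
  obtain ⟨N, hN0, hN⟩ : ∃ N : ℕ, 0 < N ∧ ∀ i, |m i| < N := by
    refine ⟨(∑ i, (m i).natAbs) + 1, by omega, fun i => ?_⟩
    have : (m i).natAbs ≤ ∑ i, (m i).natAbs :=
      Finset.single_le_sum (f := fun i => (m i).natAbs) (fun _ _ => Nat.zero_le _)
        (Finset.mem_univ i)
    rw [Int.abs_eq_natAbs]
    exact_mod_cast Nat.lt_succ_of_le this
  have := (fine_one (N := N)).cos_moment hN0 hN
  simpa using this

lemma sin_moment (m : Fin 3 → ℤ) : ∫ x in Dom, Real.sin (ph m x) = 0 := by
  obtain ⟨N, hN0, hN⟩ : ∃ N : ℕ, 0 < N ∧ ∀ i, |m i| < N := by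
    refine ⟨(∑ i, (m i).natAbs) + 1, by omega, fun i => ?_⟩
    have : (m i).natAbs ≤ ∑ i, (m i).natAbs :=
      Finset.single_le_sum (f := fun i => (m i).natAbs) (fun _ _ => Nat.zero_le _)
        (Finset.mem_univ i)
    rw [Int.abs_eq_natAbs]
    exact_mod_cast Nat.lt_succ_of_le this
  have := (fine_one (N := N)).sin_moment hN0 hN
  simpa using this

instance : IsFiniteMeasure (volume.restrict Dom : Measure V) := by
  constructor
  rw [Measure.restrict_apply_univ]
  exact dom_lt_top

/-- The normalised exponentials. -/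
noncomputable def ex (l : Fin 3 → ℤ) (x : V) : ℂ :=
  ((Real.sqrt (volume Dom).toReal)⁻¹ : ℝ) * Complex.exp (ph l x * Complex.I)

lemma ex_cont (l : Fin 3 → ℤ) : Continuous (ex l) := by
  unfold ex
  have := (ph_contDiff l).continuous
  fun_prop

lemma ex_memLp (l : Fin 3 → ℤ) : MemLp (ex l) 2 (volume.restrict Dom) := by
  refine MemLp.of_bound (ex_cont l).aestronglyMeasurable
    (Real.sqrt (volume Dom).toReal)⁻¹ (Filter.Eventually.of_forall fun x => ?_)
  unfold ex
  rw [norm_mul, Complex.norm_exp_ofReal_mul_I, mul_one, Complex.norm_real, Real.norm_eq_abs,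
    abs_of_nonneg (by positivity)]

lemma inner_toLp {f g : V → ℂ} (hf : MemLp f 2 (volume.restrict Dom))
    (hg : MemLp g 2 (volume.restrict Dom)) :
    inner ℂ (hf.toLp f) (hg.toLp g) = ∫ x in Dom, g x * conj (f x) := by
  rw [L2.inner_def]
  refine integral_congr_ae ?_
  filter_upwards [hf.coeFn_toLp, hg.coeFn_toLp] with x h1 h2
  rw [h1, h2]
  rfl

lemma ex_mul_conj (k l : Fin 3 → ℤ) (x : V) :
    ex l x * conj (ex k x) = (((volume Dom).toReal)⁻¹ : ℝ)
      * ((Real.cos (ph (l - k) x) : ℂ) + (Real.sin (ph (l - k) x) : ℂ) * Complex.I) := by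
  unfold ex
  rw [map_mul, Complex.conj_ofReal, ← Complex.exp_conj, map_mul, Complex.conj_ofReal,
    Complex.conj_I]
  have h1 : Complex.exp (ph l x * Complex.I) * Complex.exp (ph k x * -Complex.I)
      = Real.cos (ph (l - k) x) + Real.sin (ph (l - k) x) * Complex.I := by
    rw [← Complex.exp_add, Complex.ofReal_cos, Complex.ofReal_sin, ← Complex.exp_mul_I,
      ph_sub_left]
    congr 1
    push_cast
    ring
  have h2 : ((Real.sqrt (volume Dom).toReal)⁻¹ : ℝ) * ((Real.sqrt (volume Dom).toReal)⁻¹ : ℝ)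
      = ((volume Dom).toReal)⁻¹ := by
    rw [← mul_inv, Real.mul_self_sqrt ENNReal.toReal_nonneg]
  rw [← h1, ← h2]
  push_cast
  ring

lemma integrable_cos (m : Fin 3 → ℤ) : IntegrableOn (fun x => Real.cos (ph m x)) Dom :=
  (cos_periodic m).integrableOn (Real.continuous_cos.comp (ph_contDiff m).continuous)

lemma integrable_sin (m : Fin 3 → ℤ) : IntegrableOn (fun x => Real.sin (ph m x)) Dom :=
  (sin_periodic m).integrableOn (Real.continuous_sin.comp (ph_contDiff m).continuous)

lemma ex_orthonormal : Orthonormal ℂ (fun l => (ex_memLp l).toLp (ex l)) := by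
  classical
  rw [orthonormal_iff_ite]
  intro k l
  rw [inner_toLp]
  simp only [ex_mul_conj]
  rw [integral_const_mul, integral_add (integrable_cos _).ofReal
    ((integrable_sin _).ofReal.mul_const _), integral_mul_const, integral_complex_ofReal,
    integral_complex_ofReal, cos_moment, sin_moment]
  by_cases h : k = l
  · subst h
    simp only [sub_self, if_true]
    have : ((volume Dom).toReal) ≠ 0 := vol_pos.ne'
    rw [Complex.ofReal_inv, Complex.ofReal_zero, zero_mul, add_zero,
      inv_mul_cancel₀ (by exact_mod_cast this)]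
  · have h' : ¬ (l - k = 0) := fun h0 => h (sub_eq_zero.1 h0).symm
    rw [if_neg h, if_neg h']
    simp

/-- Bessel's inequality for real functions. -/
theorem bessel {g : V → ℝ} (hg : MemLp g 2 (volume.restrict Dom)) (S : Finset (Fin 3 → ℤ)) :
    ∑ l ∈ S, ((∫ x in Dom, g x * Real.cos (ph l x)) ^ 2
      + (∫ x in Dom, g x * Real.sin (ph l x)) ^ 2)
      ≤ (volume Dom).toReal * ∫ x in Dom, g x ^ 2 := by
  have hgc : MemLp (fun x => (g x : ℂ)) 2 (volume.restrict Dom) := hg.ofReal
  have hgi : Integrable g (volume.restrict Dom) := hg.integrable (by norm_num)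
  have ic : ∀ l, Integrable (fun x => g x * Real.cos (ph l x)) (volume.restrict Dom) := by
    intro l
    refine hgi.mul_bdd (c := 1) (Real.continuous_cos.comp (ph_contDiff l).continuous).aestronglyMeasurable
      (Filter.Eventually.of_forall fun x => ?_)
    exact Real.abs_cos_le_one _
  have is : ∀ l, Integrable (fun x => g x * Real.sin (ph l x)) (volume.restrict Dom) := by
    intro l
    refine hgi.mul_bdd (c := 1) (Real.continuous_sin.comp (ph_contDiff l).continuous).aestronglyMeasurable
      (Filter.Eventually.of_forall fun x => ?_)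
    exact Real.abs_sin_le_one _
  have h := ex_orthonormal.sum_inner_products_le (s := S) (x := hgc.toLp _)
  have hvol : 0 < (volume Dom).toReal := vol_pos
  have e1 : ∀ l, ‖inner ℂ ((ex_memLp l).toLp (ex l)) (hgc.toLp _)‖ ^ 2
      = ((volume Dom).toReal)⁻¹ * ((∫ x in Dom, g x * Real.cos (ph l x)) ^ 2
      + (∫ x in Dom, g x * Real.sin (ph l x)) ^ 2) := by
    intro l
    rw [inner_toLp]
    have e : ∀ x, (g x : ℂ) * conj (ex l x) = ((Real.sqrt (volume Dom).toReal)⁻¹ : ℝ)
        * (((g x * Real.cos (ph l x) : ℝ) : ℂ)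
          - ((g x * Real.sin (ph l x) : ℝ) : ℂ) * Complex.I) := by
      intro x
      unfold ex
      rw [map_mul, Complex.conj_ofReal, ← Complex.exp_conj, map_mul, Complex.conj_ofReal,
        Complex.conj_I]
      have : Complex.exp (ph l x * -Complex.I)
          = Real.cos (ph l x) - Real.sin (ph l x) * Complex.I := by
        have h1 : (ph l x : ℂ) * -Complex.I = ((-ph l x : ℝ) : ℂ) * Complex.I := by
          push_cast; ring
        rw [h1, Complex.exp_mul_I, ← Complex.ofReal_cos, ← Complex.ofReal_sin, Real.cos_neg,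
          Real.sin_neg]
        push_cast
        ring
      rw [this]
      push_cast
      ring
    simp only [e]
    rw [integral_const_mul, integral_sub (ic l).ofReal ((is l).ofReal.mul_const _),
      integral_mul_const, integral_complex_ofReal, integral_complex_ofReal, norm_mul,
      Complex.norm_real, mul_pow, Real.norm_eq_abs, sq_abs, inv_pow,
      Real.sq_sqrt ENNReal.toReal_nonneg]
    congr 1
    rw [← Complex.normSq_eq_norm_sq, Complex.normSq_apply]
    simp
    ring
  have e2 : ‖hgc.toLp (fun x => (g x : ℂ))‖ ^ 2 = ∫ x in Dom, g x ^ 2 := by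
    have h1 : ((‖hgc.toLp (fun x => (g x : ℂ))‖ ^ 2 : ℝ) : ℂ)
        = inner ℂ (hgc.toLp (fun x => (g x : ℂ))) (hgc.toLp (fun x => (g x : ℂ))) := by
      rw [inner_self_eq_norm_sq_to_K]
      push_cast
      rfl
    rw [inner_toLp] at h1
    have h2 : ∀ x, (g x : ℂ) * conj (g x : ℂ) = ((g x ^ 2 : ℝ) : ℂ) := by
      intro x
      rw [Complex.conj_ofReal]
      push_cast
      ring
    simp only [h2] at h1
    rw [integral_complex_ofReal] at h1
    exact_mod_cast h1
  rw [e2] at h
  simp only [e1] at h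
  rw [← Finset.mul_sum] at h
  calc _ = (volume Dom).toReal * (((volume Dom).toReal)⁻¹
        * ∑ l ∈ S, ((∫ x in Dom, g x * Real.cos (ph l x)) ^ 2
      + (∫ x in Dom, g x * Real.sin (ph l x)) ^ 2)) := by
        rw [← mul_assoc, mul_inv_cancel₀ hvol.ne', one_mul]
    _ ≤ _ := by gcongr

end Pool.Agent.H708R2.EulerModes
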