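import Pool.Agent.H708R2.EulerModes.Dirs

/-!
# Steady pressureless flows with prescribed low Fourier modes
-/

open MeasureTheory Set
open scoped ENNReal NNReal Topology Pointwise ContDiff

namespace Pool.Agent.H708R2.EulerModes

open Pool.Agent.H708R2.EulerSign

/-- Invariance along a direction gives a vanishing directional derivative. -/
lemma fderiv_eq_zero_of_invariant {F : V → ℝ} (hF : Differentiable ℝ F) {e : V}
    (h : ∀ (x : V) (s : ℝ), F (x + s • e) = F x) (x : V) : fderiv ℝ F x e = 0 := by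
  have h1 : HasDerivAt (fun s : ℝ => x + s • e) e 0 := by
    have := ((hasDerivAt_id (0 : ℝ)).smul_const e).const_add x
    simpa using this
  have h2 : HasFDerivAt F (fderiv ℝ F x) (x + (0 : ℝ) • e) := by
    rw [zero_smul, add_zero]; exact (hF x).hasFDerivAt
  have h3 := h2.comp_hasDerivAt (0 : ℝ) h1
  have h4 : F ∘ (fun s : ℝ => x + s • e) = fun _ => F x := by
    ext1 s; exact h x s
  rw [h4] at h3
  exact h3.unique (hasDerivAt_const _ _)

/-- A superposition of disjoint parallel flows is divergence-free and steady. -/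
lemma steady {ι : Type} [Fintype ι] [DecidableEq ι] {F : ι → V → ℝ} {e : ι → V}
    (hF : ∀ j, ContDiff ℝ ∞ (F j)) (hinv : ∀ j (x : V) (s : ℝ), F j (x + s • e j) = F j x)
    (hdis : ∀ i j, i ≠ j → ∀ x, F i x = 0 ∨ F j x = 0) :
    (∀ x, divergence (fun x => ∑ j, F j x • e j) x = 0) ∧
    (∀ x, fderiv ℝ (fun x => ∑ j, F j x • e j) x (∑ j, F j x • e j) = 0) := by
  have hd : ∀ j, Differentiable ℝ (F j) := fun j => (hF j).differentiable (by simp)
  have hder : ∀ x, HasFDerivAt (fun x => ∑ j, F j x • e j)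
      (∑ j, (fderiv ℝ (F j) x).smulRight (e j)) x := by
    intro x
    exact HasFDerivAt.fun_sum fun j _ => ((hd j x).hasFDerivAt.smul_const (e j))
  have hz : ∀ j x, fderiv ℝ (F j) x (e j) = 0 := fun j x =>
    fderiv_eq_zero_of_invariant (hd j) (hinv j) x
  constructor
  · intro x
    have h1 : divergence (fun x => ∑ j, F j x • e j) x
        = ∑ i, fderiv ℝ (fun x => ∑ j, F j x • e j) x (Pi.single i 1) i := rfl
    rw [h1, (hder x).fderiv]
    simp only [sum_apply, ContinuousLinearMap.smulRight_apply, Finset.sum_apply, Pi.smul_apply,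
      smul_eq_mul]
    rw [Finset.sum_comm]
    refine Finset.sum_eq_zero fun j _ => ?_
    have h2 : ∑ i, fderiv ℝ (F j) x (Pi.single i 1) * e j i = fderiv ℝ (F j) x (e j) := by
      have h3 : e j = ∑ i, e j i • (Pi.single i (1 : ℝ) : V) := by
        ext k
        simp [Finset.sum_apply, Pi.single_apply]
      conv_rhs => rw [h3, map_sum]
      simp [mul_comm]
    rw [h2, hz]
  · intro x
    rw [(hder x).fderiv]
    simp only [sum_apply, ContinuousLinearMap.smulRight_apply]
    refine Finset.sum_eq_zero fun j _ => ?_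
    have h0 : fderiv ℝ (F j) x (∑ i, F i x • e i) = 0 := by
      rw [map_sum]
      refine Finset.sum_eq_zero fun i _ => ?_
      rw [map_smul]
      by_cases hij : i = j
      · subst hij; rw [hz, smul_zero]
      · by_cases hx : F i x = 0
        · rw [hx, zero_smul]
        · -- `F j` vanishes near `x`
          have hU : IsOpen {y | F i y ≠ 0} := isOpen_ne_fun (hF i).continuous continuous_const
          have hev : F j =ᶠ[𝓝 x] fun _ => 0 := by
            filter_upwards [hU.mem_nhds hx] with y hy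
            exact (hdis i j hij y).resolve_left hy
          rw [hev.fderiv_eq]
          simp
    rw [h0, zero_smul]

/-- The set of integer vectors with entries at most `K` in absolute value. -/
noncomputable def Bx (K : ℕ) : Finset (Fin 3 → ℤ) := Fintype.piFinset fun _ => Finset.Icc (-(K : ℤ)) K

lemma mem_Bx {K : ℕ} {k : Fin 3 → ℤ} : k ∈ Bx K ↔ ∀ i, |k i| ≤ K := by
  simp [Bx, Fintype.mem_piFinset, abs_le]

/-- The weighted trigonometric integrals for frequencies between the blocks. -/
lemma Fine.products_zero {N K : ℕ} (hN : 2 * K < N) {ψ : V → ℝ} (h : Fine N ψ)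
    {k l : Fin 3 → ℤ} (hk : ∀ i, |k i| ≤ K) (hl : ∀ i, |l i| + K < N) (hl2 : ∃ i, K < |l i|) :
    ∫ x in Dom, ψ x * (Real.cos (ph k x) * Real.cos (ph l x)) = 0 ∧
    ∫ x in Dom, ψ x * (Real.sin (ph k x) * Real.cos (ph l x)) = 0 ∧
    ∫ x in Dom, ψ x * (Real.cos (ph k x) * Real.sin (ph l x)) = 0 ∧
    ∫ x in Dom, ψ x * (Real.sin (ph k x) * Real.sin (ph l x)) = 0 := by
  have hN0 : 0 < N := by omega
  have hsub : ∀ i, |(k - l) i| < N := by
    intro i
    have := abs_sub (k i) (l i)
    have h1 := hk i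
    have h2 := hl i
    simp only [Pi.sub_apply]
    omega
  have hadd : ∀ i, |(k + l) i| < N := by
    intro i
    have := abs_add_le (k i) (l i)
    have h1 := hk i
    have h2 := hl i
    simp only [Pi.add_apply]
    omega
  obtain ⟨i₀, hi₀⟩ := hl2
  have hs0 : k - l ≠ 0 := by
    intro h0
    have : k i₀ - l i₀ = 0 := congrFun h0 i₀
    have h1 := hk i₀
    have : l i₀ = k i₀ := by omega
    rw [this] at hi₀
    omega
  have ha0 : k + l ≠ 0 := by
    intro h0
    have : k i₀ + l i₀ = 0 := congrFun h0 i₀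
    have h1 := hk i₀
    have : l i₀ = -k i₀ := by omega
    rw [this, abs_neg] at hi₀
    omega
  refine ⟨?_, ?_, ?_, ?_⟩
  · have e : ∀ x, ψ x * (Real.cos (ph k x) * Real.cos (ph l x))
        = (ψ x * Real.cos (ph (k - l) x)) * (1 / 2) + (ψ x * Real.cos (ph (k + l) x)) * (1 / 2) := by
      intro x
      rw [ph_sub_left, ph_add_left, Real.cos_sub, Real.cos_add]; ring
    simp only [e]
    rw [integral_add ((h.int_cos _).mul_const _) ((h.int_cos _).mul_const _), integral_mul_const,
      integral_mul_const, h.cos_moment hN0 hsub, h.cos_moment hN0 hadd, if_neg hs0, if_neg ha0]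
    ring
  · have e : ∀ x, ψ x * (Real.sin (ph k x) * Real.cos (ph l x))
        = (ψ x * Real.sin (ph (k - l) x)) * (1 / 2) + (ψ x * Real.sin (ph (k + l) x)) * (1 / 2) := by
      intro x
      rw [ph_sub_left, ph_add_left, Real.sin_sub, Real.sin_add]; ring
    simp only [e]
    rw [integral_add ((h.int_sin _).mul_const _) ((h.int_sin _).mul_const _), integral_mul_const,
      integral_mul_const, h.sin_moment hN0 hsub, h.sin_moment hN0 hadd]
    ring
  · have e : ∀ x, ψ x * (Real.cos (ph k x) * Real.sin (ph l x))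
        = (ψ x * Real.sin (ph (k + l) x)) * (1 / 2) - (ψ x * Real.sin (ph (k - l) x)) * (1 / 2) := by
      intro x
      rw [ph_sub_left, ph_add_left, Real.sin_sub, Real.sin_add]; ring
    simp only [e]
    rw [integral_sub ((h.int_sin _).mul_const _) ((h.int_sin _).mul_const _), integral_mul_const,
      integral_mul_const, h.sin_moment hN0 hsub, h.sin_moment hN0 hadd]
    ring
  · have e : ∀ x, ψ x * (Real.sin (ph k x) * Real.sin (ph l x))
        = (ψ x * Real.cos (ph (k - l) x)) * (1 / 2) - (ψ x * Real.cos (ph (k + l) x)) * (1 / 2) := by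
      intro x
      rw [ph_sub_left, ph_add_left, Real.cos_sub, Real.cos_add]; ring
    simp only [e]
    rw [integral_sub ((h.int_cos _).mul_const _) ((h.int_cos _).mul_const _), integral_mul_const,
      integral_mul_const, h.cos_moment hN0 hsub, h.cos_moment hN0 hadd, if_neg hs0, if_neg ha0]
    ring

/-- The rescaled normalised pipe is a fine weight. -/
lemma fine_of_pipe {φ : V → ℝ} (hc : Continuous φ) (hp : Periodic3 φ)
    (hpos : 0 < ∫ x in Dom, φ x) {N : ℕ} (hN : 0 < N) :
    Fine N (fun x => (volume Dom).toReal / (∫ x in Dom, φ x) * φ ((N : ℝ) • x)) := by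
  have hNr : (N : ℝ) ≠ 0 := by positivity
  refine ⟨by fun_prop, ?_, ?_, ?_⟩
  · intro i x
    simp only
    congr 1
    have : (N : ℝ) • (x + Pi.single i (2 * Real.pi))
        = (N : ℝ) • x + N • (Pi.single i (2 * Real.pi) : V) := by
      rw [smul_add, Nat.cast_smul_eq_nsmul ℝ N (Pi.single i (2 * Real.pi) : V)]
    rw [this]
    have hmem : N • (Pi.single i (2 * Real.pi) : V) ∈ EulerSign.Lat := by
      apply AddSubgroup.nsmul_mem
      rw [← bas_apply]
      exact Submodule.subset_span ⟨i, rfl⟩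
    exact hp.lat hmem _
  · intro i x
    congr 1
    have : (N : ℝ) • (x + Pi.single i (2 * Real.pi / N))
        = (N : ℝ) • x + (Pi.single i (2 * Real.pi) : V) := by
      rw [smul_add]
      congr 1
      ext j
      by_cases hj : j = i
      · subst hj; simp; field_simp
      · simp [hj]
    rw [this, hp]
  · rw [integral_const_mul, integral_dilate hp hc hN]
    field_simp

/-- Existence of steady pressureless flows with prescribed low modes and uniform bounds. -/
theorem exists_steady (K : ℕ) (A B : (Fin 3 → ℤ) → V)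
    (hA : ∀ k ∈ Bx K, ph k (A k) = 0) (hB : ∀ k ∈ Bx K, ph k (B k) = 0)
    (hAs : ∀ k ∈ Bx K, A (-k) = A k) (hBs : ∀ k ∈ Bx K, B (-k) = -B k) :
    ∃ C : ℝ, 0 ≤ C ∧ ∀ N : ℕ, 2 * K < N → ∃ v : V → V, ContDiff ℝ ∞ v ∧ Periodic3 v ∧
      (∀ x, divergence v x = 0) ∧ (∀ x, fderiv ℝ v x (v x) = 0) ∧ (∀ x, ‖v x‖ ≤ C) ∧
      (∀ l ∈ Bx K, ∀ i, ∫ x in Dom, v x i * Real.cos (ph l x) = A l i ∧
        ∫ x in Dom, v x i * Real.sin (ph l x) = B l i) ∧
      (∀ l : Fin 3 → ℤ, l ∉ Bx K → (∀ i, |l i| + K < N) → ∀ i,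
        ∫ x in Dom, v x i * Real.cos (ph l x) = 0 ∧
        ∫ x in Dom, v x i * Real.sin (ph l x) = 0) := by
  classical
  choose ξ m n hξ hm hn hs hspan using exists_dirs
  choose! a ha using fun (k : Fin 3 → ℤ) (hk : k ∈ Bx K) => hspan k (A k) (hA k hk)
  choose! b hb using fun (k : Fin 3 → ℤ) (hk : k ∈ Bx K) => hspan k (B k) (hB k hk)
  let ι := {k // k ∈ Bx K} × Fin 3
  obtain ⟨φ, hφs, hφp, hφ0, hφ1, hφi, hφd, hφn⟩ := exists_pipes (ι := ι)
    (fun j => ξ j.1 j.2) (fun j => m j.1 j.2) (fun j => n j.1 j.2)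
    (fun j => hm j.1 j.2) (fun j => hn j.1 j.2) (fun j => hs j.1 j.2)
  set vol : ℝ := (volume Dom).toReal with hvol
  have hvol0 : 0 < vol := vol_pos
  have hIpos : ∀ j, 0 < ∫ x in Dom, φ j x := by
    intro j
    refine lt_of_le_of_ne (integral_nonneg fun x => hφ0 j x) fun h0 => ?_
    obtain ⟨x, hx⟩ := hφn j
    exact hx (eq_zero_of_integral_eq_zero (hφp j) (hφs j).continuous (hφ0 j) h0.symm x)
  let f : ι → V → ℝ := fun j x => a j.1 j.2 * Real.cos (ph j.1 x) + b j.1 j.2 * Real.sin (ph j.1 x)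
  refine ⟨∑ j : ι, (|a j.1 j.2| + |b j.1 j.2|) * (1 / ∫ x in Dom, φ j x) * ‖rv (ξ j.1 j.2)‖,
    Finset.sum_nonneg fun j _ => by have := hIpos j; positivity, ?_⟩
  intro N hN
  have hN0 : 0 < N := by omega
  have hNr : (N : ℝ) ≠ 0 := by positivity
  let ψ : ι → V → ℝ := fun j x => vol / (∫ x in Dom, φ j x) * φ j ((N : ℝ) • x)
  have hψ : ∀ j, Fine N (ψ j) := fun j =>
    fine_of_pipe (hφs j).continuous (hφp j) (hIpos j) hN0
  let F : ι → V → ℝ := fun j x => vol⁻¹ * (f j x * ψ j x)
  have hfs : ∀ j, ContDiff ℝ ∞ (f j) := fun j =>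
    (contDiff_const.mul (Real.contDiff_cos.comp (ph_contDiff _))).add
      (contDiff_const.mul (Real.contDiff_sin.comp (ph_contDiff _)))
  have hψs : ∀ j, ContDiff ℝ ∞ (ψ j) := fun j =>
    contDiff_const.mul ((hφs j).comp (contDiff_const_smul (N : ℝ)))
  have hFs : ∀ j, ContDiff ℝ ∞ (F j) := fun j => contDiff_const.mul ((hfs j).mul (hψs j))
  have hFinv : ∀ j (x : V) (s : ℝ), F j (x + s • rv (ξ j.1 j.2)) = F j x := by
    intro j x s
    have e1 : ph j.1 (x + s • rv (ξ j.1 j.2)) = ph j.1 x := by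
      rw [ph_add, ph_smul, hξ, mul_zero, add_zero]
    have e2 : φ j ((N : ℝ) • (x + s • rv (ξ j.1 j.2))) = φ j ((N : ℝ) • x) := by
      rw [smul_add, smul_smul]
      exact hφi j _ _
    simp only [F, f, ψ]
    rw [e1, e2]
  have hFdis : ∀ i j, i ≠ j → ∀ x, F i x = 0 ∨ F j x = 0 := by
    intro i j hij x
    rcases hφd i j hij ((N : ℝ) • x) with h | h
    · left; simp only [F, ψ]; rw [h]; ring
    · right; simp only [F, ψ]; rw [h]; ring
  have hst := steady (e := fun j : ι => rv (ξ j.1 j.2)) hFs hFinv hFdis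
  have hvp : Periodic3 (fun x => ∑ j, F j x • rv (ξ j.1 j.2)) := by
    intro i x
    simp only
    refine Finset.sum_congr rfl fun j _ => ?_
    congr 1
    have e1 := cos_periodic j.1 i x
    have e2 := sin_periodic j.1 i x
    simp only at e1 e2
    simp only [F, f]
    rw [e1, e2, (hψ j).per i x]
  have hint1 : ∀ (j : ι) (g : V → ℝ), Continuous g → Periodic3 g →
      IntegrableOn (fun x => ψ j x * g x) Dom := by
    intro j g hg hgp
    refine Periodic3.integrableOn ?_ ((hψ j).cont.mul hg)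
    intro i x
    simp only
    rw [(hψ j).per i x, hgp i x]
  have cosc : ∀ k, Continuous (fun x => Real.cos (ph k x)) := fun k =>
    Real.continuous_cos.comp (ph_contDiff k).continuous
  have sinc : ∀ k, Continuous (fun x => Real.sin (ph k x)) := fun k =>
    Real.continuous_sin.comp (ph_contDiff k).continuous
  -- the general formula for the modes
  have hmodes : ∀ (g : V → ℝ), Continuous g → Periodic3 g → ∀ i,
      ∫ x in Dom, (∑ j, F j x • rv (ξ j.1 j.2)) i * g x
        = ∑ j, vol⁻¹ * (a j.1 j.2 * (∫ x in Dom, ψ j x * (Real.cos (ph j.1 x) * g x))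
          + b j.1 j.2 * (∫ x in Dom, ψ j x * (Real.sin (ph j.1 x) * g x)))
          * rv (ξ j.1 j.2) i := by
    intro g hg hgp i
    have e : ∀ x, (∑ j, F j x • rv (ξ j.1 j.2)) i * g x
        = ∑ j, (vol⁻¹ * (a j.1 j.2 * (ψ j x * (Real.cos (ph j.1 x) * g x))
          + b j.1 j.2 * (ψ j x * (Real.sin (ph j.1 x) * g x))) * rv (ξ j.1 j.2) i) := by
      intro x
      rw [Finset.sum_apply, Finset.sum_mul]
      refine Finset.sum_congr rfl fun j _ => ?_
      simp only [Pi.smul_apply, smul_eq_mul, F, f]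
      ring
    simp only [e]
    have i1 : ∀ j : ι, IntegrableOn (fun x => ψ j x * (Real.cos (ph j.1 x) * g x)) Dom := by
      intro j
      refine hint1 j _ ((cosc _).mul hg) ?_
      intro i x
      have := cos_periodic j.1 i x
      simp only at this ⊢
      rw [this, hgp i x]
    have i2 : ∀ j : ι, IntegrableOn (fun x => ψ j x * (Real.sin (ph j.1 x) * g x)) Dom := by
      intro j
      refine hint1 j _ ((sinc _).mul hg) ?_
      intro i x
      have := sin_periodic j.1 i x
      simp only at this ⊢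
      rw [this, hgp i x]
    rw [integral_finsetSum]
    · refine Finset.sum_congr rfl fun j _ => ?_
      rw [integral_mul_const, integral_const_mul,
        integral_add ((i1 j).const_mul _) ((i2 j).const_mul _), integral_const_mul,
        integral_const_mul]
    · intro j _
      exact ((((i1 j).const_mul _).add ((i2 j).const_mul _)).const_mul _).mul_const _
  refine ⟨fun x => ∑ j, F j x • rv (ξ j.1 j.2), ?_, hvp, hst.1, hst.2, ?_, ?_, ?_⟩
  · exact ContDiff.sum fun j _ => (hFs j).smul contDiff_const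
  · intro x
    refine (norm_sum_le _ _).trans (Finset.sum_le_sum fun j _ => ?_)
    rw [norm_smul]
    gcongr
    have h1 : |f j x| ≤ |a j.1 j.2| + |b j.1 j.2| := by
      simp only [f]
      refine (abs_add_le _ _).trans ?_
      rw [abs_mul, abs_mul]
      have c1 := Real.abs_cos_le_one (ph j.1 x)
      have c2 := Real.abs_sin_le_one (ph j.1 x)
      have d1 := abs_nonneg (a j.1 j.2)
      have d2 := abs_nonneg (b j.1 j.2)
      nlinarith
    have h2 : |ψ j x| ≤ vol * (1 / ∫ x in Dom, φ j x) := by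
      simp only [ψ]
      have hI := hIpos j
      rw [abs_mul, abs_of_pos (by positivity), abs_of_nonneg (hφ0 _ _)]
      have := hφ1 j ((N : ℝ) • x)
      calc vol / (∫ x in Dom, φ j x) * φ j ((N : ℝ) • x)
          ≤ vol / (∫ x in Dom, φ j x) * 1 := by gcongr
        _ = vol * (1 / ∫ x in Dom, φ j x) := by ring
    simp only [F]
    rw [Real.norm_eq_abs, abs_mul, abs_mul, abs_of_pos (inv_pos.2 hvol0)]
    have hI := hIpos j
    calc vol⁻¹ * (|f j x| * |ψ j x|)
        ≤ vol⁻¹ * ((|a j.1 j.2| + |b j.1 j.2|) * (vol * (1 / ∫ x in Dom, φ j x))) := by gcongr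
      _ = (|a j.1 j.2| + |b j.1 j.2|) * (1 / ∫ x in Dom, φ j x) := by
        field_simp
  · intro l hl i
    have hl' := mem_Bx.1 hl
    have hnegl : -l ∈ Bx K := by
      rw [mem_Bx]; intro i; simp only [Pi.neg_apply, abs_neg]; exact hl' i
    -- summation over the frequencies
    have hsumgen : ∀ (c : (Fin 3 → ℤ) → Fin 3 → ℝ) (Z : (Fin 3 → ℤ) → V) (σ : ℝ),
        (∀ k ∈ Bx K, Z k = ∑ i, c k i • rv (ξ k i)) →
        ∑ j : ι, vol⁻¹ * (c j.1 j.2 * (((if (j.1 : Fin 3 → ℤ) - l = 0 then vol else 0)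
          + σ * (if (j.1 : Fin 3 → ℤ) + l = 0 then vol else 0)) / 2)) * rv (ξ j.1 j.2) i
        = (Z l i + σ * Z (-l) i) / 2 := by
      intro c Z σ hZ
      rw [Fintype.sum_prod_type]
      have e1 : ∀ k : {k // k ∈ Bx K}, ∑ i', vol⁻¹ * (c k i' * (((if (k : Fin 3 → ℤ) - l = 0 then vol else 0)
          + σ * (if (k : Fin 3 → ℤ) + l = 0 then vol else 0)) / 2)) * rv (ξ k i') i
          = ((if (k : Fin 3 → ℤ) - l = 0 then 1 else 0)
          + σ * (if (k : Fin 3 → ℤ) + l = 0 then 1 else 0)) / 2 * Z k i := by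
        intro k
        rw [hZ k k.2, Finset.sum_apply, Finset.mul_sum]
        refine Finset.sum_congr rfl fun i' _ => ?_
        simp only [Pi.smul_apply, smul_eq_mul]
        split_ifs <;> field_simp <;> ring
      rw [Finset.sum_congr rfl fun k _ => e1 k]
      have e2 : ∑ k : {k // k ∈ Bx K}, ((if (k : Fin 3 → ℤ) - l = 0 then 1 else 0)
          + σ * (if (k : Fin 3 → ℤ) + l = 0 then 1 else 0)) / 2 * Z k i
          = ∑ k ∈ Bx K, ((if k - l = 0 then 1 else 0)
          + σ * (if k + l = 0 then 1 else 0)) / 2 * Z k i :=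
        Finset.sum_coe_sort (Bx K) (fun k => ((if k - l = 0 then (1:ℝ) else 0)
          + σ * (if k + l = 0 then 1 else 0)) / 2 * Z k i)
      rw [e2]
      have e3 : ∀ k ∈ Bx K, ((if k - l = 0 then (1:ℝ) else 0)
          + σ * (if k + l = 0 then 1 else 0)) / 2 * Z k i
          = (if k = l then Z k i / 2 else 0) + (if k = -l then σ * Z k i / 2 else 0) := by
        intro k _
        have q1 : (k - l = 0) ↔ (k = l) := sub_eq_zero
        have q2 : (k + l = 0) ↔ (k = -l) := add_eq_zero_iff_eq_neg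
        simp only [q1, q2]
        split_ifs <;> ring
      rw [Finset.sum_congr rfl e3, Finset.sum_add_distrib, Finset.sum_ite_eq', Finset.sum_ite_eq',
        if_pos hl, if_pos hnegl]
      ring
    constructor
    · rw [hmodes _ (cosc l) (cos_periodic l)]
      have e : ∀ j : ι, vol⁻¹ * (a j.1 j.2 * (∫ x in Dom, ψ j x * (Real.cos (ph j.1 x) * Real.cos (ph l x)))
          + b j.1 j.2 * (∫ x in Dom, ψ j x * (Real.sin (ph j.1 x) * Real.cos (ph l x))))
          * rv (ξ j.1 j.2) i = vol⁻¹ * (a j.1 j.2 * (((if (j.1 : Fin 3 → ℤ) - l = 0 then vol else 0)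
          + 1 * (if (j.1 : Fin 3 → ℤ) + l = 0 then vol else 0)) / 2)) * rv (ξ j.1 j.2) i := by
        intro j
        obtain ⟨p1, p2, -, -⟩ := (hψ j).products hN (mem_Bx.1 j.1.2) hl'
        rw [p1, p2]
        ring
      rw [Finset.sum_congr rfl fun j _ => e j, hsumgen a A 1 ha, hAs l hl]
      ring
    · rw [hmodes _ (sinc l) (sin_periodic l)]
      have e : ∀ j : ι, vol⁻¹ * (a j.1 j.2 * (∫ x in Dom, ψ j x * (Real.cos (ph j.1 x) * Real.sin (ph l x)))
          + b j.1 j.2 * (∫ x in Dom, ψ j x * (Real.sin (ph j.1 x) * Real.sin (ph l x))))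
          * rv (ξ j.1 j.2) i = vol⁻¹ * (b j.1 j.2 * (((if (j.1 : Fin 3 → ℤ) - l = 0 then vol else 0)
          + (-1) * (if (j.1 : Fin 3 → ℤ) + l = 0 then vol else 0)) / 2)) * rv (ξ j.1 j.2) i := by
        intro j
        obtain ⟨-, -, p3, p4⟩ := (hψ j).products hN (mem_Bx.1 j.1.2) hl'
        rw [p3, p4]
        ring
      rw [Finset.sum_congr rfl fun j _ => e j, hsumgen b B (-1) hb, hBs l hl]
      simp only [Pi.neg_apply]
      ring
  · intro l hl hlN i
    have hl2 : ∃ i, (K : ℤ) < |l i| := by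
      rw [mem_Bx] at hl
      push Not at hl
      exact hl
    constructor
    · rw [hmodes _ (cosc l) (cos_periodic l)]
      refine Finset.sum_eq_zero fun j _ => ?_
      obtain ⟨p1, p2, -, -⟩ := (hψ j).products_zero hN (mem_Bx.1 j.1.2) hlN hl2
      rw [p1, p2]
      ring
    · rw [hmodes _ (sinc l) (sin_periodic l)]
      refine Finset.sum_eq_zero fun j _ => ?_
      obtain ⟨-, -, p3, p4⟩ := (hψ j).products_zero hN (mem_Bx.1 j.1.2) hlN hl2
      rw [p3, p4]
      ring

end Pool.Agent.H708R2.EulerModes
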