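import Pool.Agent.H708R2.EulerSign.Defs

/-!
# Definitions: Fourier coefficients of periodic fields on `ℝ³`
-/

open MeasureTheory Set
open scoped ContDiff

namespace Pool.Agent.H708R2.EulerModes

open Pool.Agent.H708R2.EulerSign

/-- `k · x` for an integer vector `k`. -/
noncomputable def ph (k : Fin 3 → ℤ) (x : V) : ℝ := ∑ i, (k i : ℝ) * x i

/-- The cube `[-π, π]³`. -/
def cube : Set V := Icc (fun _ => -Real.pi) (fun _ => Real.pi)

/-- The Fourier cosine coefficient `∫ g(x) cos(l · x) dx` over `𝕋³` (not normalised). -/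
noncomputable def cosCoeff (l : Fin 3 → ℤ) (g : V → ℝ) : ℝ := ∫ x in cube, g x * Real.cos (ph l x)

/-- The Fourier sine coefficient `∫ g(x) sin(l · x) dx` over `𝕋³` (not normalised). -/
noncomputable def sinCoeff (l : Fin 3 → ℤ) (g : V → ℝ) : ℝ := ∫ x in cube, g x * Real.sin (ph l x)

/-- The divergence of the periodic field `u` vanishes in the sense of distributions on `𝕋³`. -/
def WeakDivFree (u : V → V) : Prop :=
  ∀ ψ : V → ℝ, ContDiff ℝ ∞ ψ → Periodic3 ψ → ∫ x in cube, fderiv ℝ ψ x (u x) = 0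

/-- The fields `v` and `u` have the same Fourier coefficients at all frequencies `l` with
`|l i| ≤ K`, `i = 1, 2, 3`. -/
def SameModes (K : ℕ) (v u : V → V) : Prop :=
  ∀ l : Fin 3 → ℤ, (∀ i, |l i| ≤ K) → ∀ i,
    cosCoeff l (fun x => v x i) = cosCoeff l (fun x => u x i) ∧
    sinCoeff l (fun x => v x i) = sinCoeff l (fun x => u x i)

/-- `∑_l (1 + |l|²)^(-s) |(v - u)^(l)|² ≤ ε²`, the sum being over all frequencies `l ∈ ℤ³` (every
finite partial sum is at most `ε²`): the norm of `v - u` in `H^{-s}(𝕋³)` (with non-normalised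
Fourier coefficients) is at most `ε`. -/
def HNegClose (s ε : ℝ) (v u : V → V) : Prop :=
  ∀ S : Finset (Fin 3 → ℤ), ∑ l ∈ S, (1 + ∑ i, (l i : ℝ) ^ 2) ^ (-s) *
    ∑ i, (cosCoeff l (fun x => v x i - u x i) ^ 2 + sinCoeff l (fun x => v x i - u x i) ^ 2)
      ≤ ε ^ 2

end Pool.Agent.H708R2.EulerModes
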