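import Pool.Agent.H708R2.EulerModes.Fourier

/-!
# Integer directions orthogonal to an integer vector
-/

open MeasureTheory Set
open scoped ENNReal NNReal Topology Pointwise ContDiff

namespace Pool.Agent.H708R2.EulerModes

open Pool.Agent.H708R2.EulerSign

lemma sum3 {M : Type*} [AddCommGroup M] (p : Fin 3) (f : Fin 3 → M) :
    ∑ i, f i = f p + f (p + 1) + f (p + 2) := by
  fin_cases p
  · simp [Fin.sum_univ_three]
  · simp [Fin.sum_univ_three]
    abel
  · simp [Fin.sum_univ_three]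
    abel

lemma ph_eq (k : Fin 3 → ℤ) (x : V) (p : Fin 3) :
    ph k x = k p * x p + k (p + 1) * x (p + 1) + k (p + 2) * x (p + 2) := by
  unfold ph; rw [sum3 p]

lemma fin3_ne (p : Fin 3) : p + 1 ≠ p ∧ p + 2 ≠ p ∧ p + 2 ≠ p + 1 ∧ p ≠ p + 1 ∧ p ≠ p + 2 ∧
    p + 1 ≠ p + 2 := by
  fin_cases p <;> decide

/-- The vector with entries `a, b, c` at the places `p, p+1, p+2`. -/
def mk3 {R : Type*} (p : Fin 3) (a b c : R) : Fin 3 → R := fun i =>
  if i = p then a else if i = p + 1 then b else c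

lemma mk3_p {R : Type*} (p : Fin 3) (a b c : R) : mk3 p a b c p = a := by simp [mk3]

lemma mk3_q {R : Type*} (p : Fin 3) (a b c : R) : mk3 p a b c (p + 1) = b := by
  simp [mk3]

lemma mk3_r {R : Type*} (p : Fin 3) (a b c : R) : mk3 p a b c (p + 2) = c := by
  obtain ⟨h1, h2, h3, h4, h5, h6⟩ := fin3_ne p
  simp [mk3]

lemma ph_mk3 (p : Fin 3) (a b c : ℤ) (x : V) :
    ph (mk3 p a b c) x = a * x p + b * x (p + 1) + c * x (p + 2) := by
  rw [ph_eq _ _ p, mk3_p, mk3_q, mk3_r]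

lemma rv_mk3_p (p : Fin 3) (a b c : ℤ) : rv (mk3 p a b c) p = a := by
  simp [rv, mk3_p]

lemma rv_mk3_q (p : Fin 3) (a b c : ℤ) : rv (mk3 p a b c) (p + 1) = b := by
  simp [rv, mk3_q]

lemma rv_mk3_r (p : Fin 3) (a b c : ℤ) : rv (mk3 p a b c) (p + 2) = c := by
  simp [rv, mk3_r]

lemma ext3 {x y : V} (p : Fin 3) (h0 : x p = y p) (h1 : x (p + 1) = y (p + 1))
    (h2 : x (p + 2) = y (p + 2)) : x = y := by
  ext i
  fin_cases p <;> fin_cases i <;> first | exact h0 | exact h1 | exact h2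

/-- Data for the directions orthogonal to `k`. -/
theorem exists_dirs (k : Fin 3 → ℤ) : ∃ ξ m n : Fin 3 → (Fin 3 → ℤ),
    (∀ i, ph k (rv (ξ i)) = 0) ∧ (∀ i, ph (m i) (rv (ξ i)) = 0) ∧
    (∀ i, ph (n i) (rv (ξ i)) = 0) ∧
    (∀ i (α β : ℝ), ∃ x, ph (m i) x = α ∧ ph (n i) x = β) ∧
    (∀ A : V, ph k A = 0 → ∃ a : Fin 3 → ℝ, A = ∑ i, a i • rv (ξ i)) := by
  by_cases hk : k = 0
  · subst hk
    refine ⟨fun i => mk3 i 1 0 0, fun i => mk3 i 0 1 0, fun i => mk3 i 0 0 1, ?_, ?_, ?_, ?_, ?_⟩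
    · intro i; rw [ph_zero]
    · intro i; rw [ph_mk3, rv_mk3_p, rv_mk3_q, rv_mk3_r]; simp
    · intro i; rw [ph_mk3, rv_mk3_p, rv_mk3_q, rv_mk3_r]; simp
    · intro i α β
      refine ⟨mk3 i 0 α β, ?_, ?_⟩
      · rw [ph_mk3, mk3_p, mk3_q, mk3_r]; simp
      · rw [ph_mk3, mk3_p, mk3_q, mk3_r]; simp
    · intro A _
      refine ⟨A, ?_⟩
      ext i
      rw [sum3 i]
      simp only [Pi.add_apply, Pi.smul_apply, smul_eq_mul, rv_mk3_p]
      have e1 : rv (mk3 (i + 1) 1 0 0) i = 0 := by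
        fin_cases i <;> simp [rv, mk3]
      have e2 : rv (mk3 (i + 2) 1 0 0) i = 0 := by
        fin_cases i <;> simp [rv, mk3]
      rw [e1, e2]
      simp
  · obtain ⟨p, hp⟩ : ∃ p, k p ≠ 0 := by
      by_contra hcon
      push Not at hcon
      exact hk (funext hcon)
    have hpr : (k p : ℝ) ≠ 0 := by exact_mod_cast hp
    refine ⟨![mk3 p (-k (p + 1)) (k p) 0, mk3 p (-k (p + 2)) 0 (k p), 0],
      ![k, k, mk3 0 1 0 0], ![mk3 p 0 0 1, mk3 p 0 1 0, mk3 0 0 1 0], ?_, ?_, ?_, ?_, ?_⟩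
    · intro i
      fin_cases i
      · simp only [Fin.zero_eta, Matrix.cons_val_zero]
        rw [ph_eq _ _ p, rv_mk3_p, rv_mk3_q, rv_mk3_r]
        push_cast; ring
      · simp only [Fin.mk_one, Matrix.cons_val_one, Matrix.cons_val_zero]
        rw [ph_eq _ _ p, rv_mk3_p, rv_mk3_q, rv_mk3_r]
        push_cast; ring
      · simp [ph, rv]
    · intro i
      fin_cases i
      · simp only [Fin.zero_eta, Matrix.cons_val_zero]
        rw [ph_eq _ _ p, rv_mk3_p, rv_mk3_q, rv_mk3_r]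
        push_cast; ring
      · simp only [Fin.mk_one, Matrix.cons_val_one, Matrix.cons_val_zero]
        rw [ph_eq _ _ p, rv_mk3_p, rv_mk3_q, rv_mk3_r]
        push_cast; ring
      · simp [ph, rv]
    · intro i
      fin_cases i
      · simp only [Fin.zero_eta, Matrix.cons_val_zero]
        rw [ph_mk3, rv_mk3_p, rv_mk3_q, rv_mk3_r]
        simp
      · simp only [Fin.mk_one, Matrix.cons_val_one, Matrix.cons_val_zero]
        rw [ph_mk3, rv_mk3_p, rv_mk3_q, rv_mk3_r]
        simp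
      · simp [ph, rv]
    · intro i α β
      fin_cases i
      · refine ⟨mk3 p ((α - k (p + 2) * β) / k p) 0 β, ?_, ?_⟩
        · simp only [Fin.zero_eta, Matrix.cons_val_zero]
          rw [ph_eq _ _ p, mk3_p, mk3_q, mk3_r]
          field_simp
          ring
        · simp only [Fin.zero_eta, Matrix.cons_val_zero]
          rw [ph_mk3, mk3_p, mk3_q, mk3_r]
          simp
      · refine ⟨mk3 p ((α - k (p + 1) * β) / k p) β 0, ?_, ?_⟩
        · simp only [Fin.mk_one, Matrix.cons_val_one, Matrix.cons_val_zero]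
          rw [ph_eq _ _ p, mk3_p, mk3_q, mk3_r]
          field_simp
          ring
        · simp only [Fin.mk_one, Matrix.cons_val_one, Matrix.cons_val_zero]
          rw [ph_mk3, mk3_p, mk3_q, mk3_r]
          simp
      · refine ⟨mk3 0 α β 0, ?_, ?_⟩
        · show ph (mk3 0 1 0 0) _ = α
          rw [ph_mk3, mk3_p, mk3_q, mk3_r]
          simp
        · show ph (mk3 0 0 1 0) _ = β
          rw [ph_mk3, mk3_p, mk3_q, mk3_r]
          simp
    · intro A hA
      rw [ph_eq _ _ p] at hA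
      refine ⟨![A (p + 1) / k p, A (p + 2) / k p, 0], ?_⟩
      rw [Fin.sum_univ_three]
      simp only [Matrix.cons_val_zero, Matrix.cons_val_one, Matrix.cons_val, zero_smul, add_zero]
      refine ext3 p ?_ ?_ ?_
      · simp only [Pi.add_apply, Pi.smul_apply, smul_eq_mul]
        rw [rv_mk3_p, rv_mk3_p]
        field_simp
        push_cast
        linarith
      · simp only [Pi.add_apply, Pi.smul_apply, smul_eq_mul]
        rw [rv_mk3_q, rv_mk3_q]
        field_simp
        push_cast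
        ring
      · simp only [Pi.add_apply, Pi.smul_apply, smul_eq_mul]
        rw [rv_mk3_r, rv_mk3_r]
        field_simp
        push_cast
        ring

end Pool.Agent.H708R2.EulerModes
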