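import Pool.Agent.H708R2.EulerModes.Pipes

/-!
# Integrals of periodic functions on `𝕋³`
-/

open MeasureTheory Set
open scoped ENNReal NNReal Topology Pointwise ContDiff

namespace Pool.Agent.H708R2.EulerModes

open Pool.Agent.H708R2.EulerSign

variable {E : Type*} [NormedAddCommGroup E] [NormedSpace ℝ E]

lemma lat_invariant {F : Type*} {f : V → F} (hp : Periodic3 f) (g : EulerSign.Lat) (x : V) :
    f (g +ᵥ x) = f x := by
  have h : (g +ᵥ x : V) = x + g := by rw [add_comm]; rfl
  rw [h, hp.lat g.2]

/-- The integral of a periodic function over a period cell is invariant under translations. -/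
lemma integral_translate {f : V → E} (hp : Periodic3 f) (c : V) :
    ∫ x in Dom, f (x + c) = ∫ x in Dom, f x := by
  have h1 : ∫ y in (fun x => x + c) '' Dom, f y = ∫ x in Dom, f (x + c) :=
    (measurePreserving_add_right (volume : Measure V) c).setIntegral_image_emb
      (MeasurableEquiv.addRight c).measurableEmbedding f Dom
  rw [← h1]
  refine (image_fd ?_ ?_ ?_).setIntegral_eq dom_fd (lat_invariant hp)
  · exact (Equiv.addRight c).bijective
  · fun_prop
  · intro g _ x
    abel

lemma vol_pos : 0 < (volume Dom).toReal :=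
  ENNReal.toReal_pos dom_ne_zero dom_lt_top.ne

/-- The integral of `x ↦ f (N x)` over a period cell is that of `f`. -/
lemma integral_dilate {f : V → ℝ} (hp : Periodic3 f) (hc : Continuous f) {N : ℕ} (hN : 0 < N) :
    ∫ x in Dom, f ((N : ℝ) • x) = ∫ x in Dom, f x := by
  have hNr : (N : ℝ) ≠ 0 := by positivity
  have hpN : Periodic3 (fun x => f ((N : ℝ) • x)) := by
    intro i x
    simp only
    have : (N : ℝ) • (x + Pi.single i (2 * Real.pi))
        = (N : ℝ) • x + N • (Pi.single i (2 * Real.pi) : V) := by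
      rw [smul_add, Nat.cast_smul_eq_nsmul ℝ N (Pi.single i (2 * Real.pi) : V)]
    rw [this]
    have hmem : N • (Pi.single i (2 * Real.pi) : V) ∈ EulerSign.Lat := by
      apply AddSubgroup.nsmul_mem
      rw [← bas_apply]
      exact Submodule.subset_span ⟨i, rfl⟩
    exact hp.lat hmem _
  obtain ⟨C, -, hC⟩ := hp.bounded hc
  have hfin : IsFiniteMeasure (volume.restrict Dom : Measure V) := by
    constructor
    rw [Measure.restrict_apply_univ]
    exact dom_lt_top
  have hint : Integrable (Function.uncurry fun c x : V => f ((N : ℝ) • x + c))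
      ((volume.restrict Dom).prod (volume.restrict Dom)) := by
    refine Integrable.of_bound (C := C) ?_ (Filter.Eventually.of_forall fun z => hC _)
    refine Continuous.aestronglyMeasurable ?_
    have : Function.uncurry (fun c x : V => f ((N : ℝ) • x + c))
        = f ∘ (fun z : V × V => (N : ℝ) • z.2 + z.1) := rfl
    rw [this]
    exact hc.comp (by fun_prop)
  have hswap := integral_integral_swap hint
  -- inner integral on the left
  have h1 : ∀ c : V, ∫ x in Dom, f ((N : ℝ) • x + c) = ∫ x in Dom, f ((N : ℝ) • x) := by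
    intro c
    have := integral_translate hpN ((N : ℝ)⁻¹ • c)
    rw [← this]
    congr 1
    ext1 x
    rw [smul_add, smul_smul, mul_inv_cancel₀ hNr, one_smul]
  have h2 : ∀ x : V, ∫ c in Dom, f ((N : ℝ) • x + c) = ∫ c in Dom, f c := by
    intro x
    rw [← integral_translate hp ((N : ℝ) • x)]
    congr 1
    ext1 c
    rw [add_comm]
  simp only [h1, h2, setIntegral_const, smul_eq_mul, Measure.real] at hswap
  exact mul_left_cancel₀ vol_pos.ne' hswap

/-- Trigonometric integrals against a function with a fine period vanish. -/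
lemma integral_trig_eq_zero {h : V → ℝ} (hp : Periodic3 h) (hc : Continuous h) {N : ℕ}
    (hN : 0 < N) (hfine : ∀ (i : Fin 3) (x : V), h (x + Pi.single i (2 * Real.pi / N)) = h x)
    {m : Fin 3 → ℤ} {i : Fin 3} (hm0 : m i ≠ 0) (hmN : |m i| < N) :
    ∫ x in Dom, h x * Real.cos (ph m x) = 0 ∧ ∫ x in Dom, h x * Real.sin (ph m x) = 0 := by
  have hNr : (N : ℝ) ≠ 0 := by positivity
  set θ : ℝ := (m i : ℝ) * (2 * Real.pi / N) with hθ
  set c : V := Pi.single i (2 * Real.pi / N) with hcdef
  have hphc : Continuous (ph m) := (ph_contDiff m).continuous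
  have per : ∀ (j : Fin 3) (x : V), ph m (x + Pi.single j (2 * Real.pi))
      = ph m x + (m j : ℤ) * (2 * Real.pi) := by
    intro j x; rw [ph_add, ph_single]
  have pc : Periodic3 (fun x => h x * Real.cos (ph m x)) := by
    intro j x
    simp only
    rw [hp j x, per, Real.cos_add_int_mul_two_pi]
  have ps : Periodic3 (fun x => h x * Real.sin (ph m x)) := by
    intro j x
    simp only
    rw [hp j x, per, Real.sin_add_int_mul_two_pi]
  have ic : IntegrableOn (fun x => h x * Real.cos (ph m x)) Dom :=
    pc.integrableOn (hc.mul (Real.continuous_cos.comp hphc))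
  have is : IntegrableOn (fun x => h x * Real.sin (ph m x)) Dom :=
    ps.integrableOn (hc.mul (Real.continuous_sin.comp hphc))
  set Ic := ∫ x in Dom, h x * Real.cos (ph m x) with hIc
  set Is := ∫ x in Dom, h x * Real.sin (ph m x) with hIs
  have hphx : ∀ x, ph m (x + c) = ph m x + θ := by
    intro x; rw [ph_add, hcdef, ph_single]
  have e1 : Ic = Real.cos θ * Ic - Real.sin θ * Is := by
    conv_lhs => rw [hIc, ← integral_translate pc c]
    rw [hIc, hIs, ← integral_const_mul, ← integral_const_mul,
      ← integral_sub (ic.const_mul _) (is.const_mul _)]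
    congr 1
    ext1 x
    rw [hphx, Real.cos_add, hcdef, hfine]
    ring
  have e2 : Is = Real.sin θ * Ic + Real.cos θ * Is := by
    conv_lhs => rw [hIs, ← integral_translate ps c]
    rw [hIc, hIs, ← integral_const_mul, ← integral_const_mul,
      ← integral_add (ic.const_mul _) (is.const_mul _)]
    congr 1
    ext1 x
    rw [hphx, Real.sin_add, hcdef, hfine]
    ring
  have hcos : Real.cos θ < 1 := by
    refine lt_of_le_of_ne (Real.cos_le_one θ) fun h1 => ?_
    obtain ⟨z, hz⟩ := (Real.cos_eq_one_iff θ).1 h1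
    have h2 : (z : ℝ) * N = m i := by
      rw [hθ] at hz
      have hpi : (2 * Real.pi) ≠ 0 := by positivity
      apply mul_right_cancel₀ hpi
      calc (z : ℝ) * N * (2 * Real.pi) = (z * (2 * Real.pi)) * N := by ring
        _ = (m i : ℝ) * (2 * Real.pi / N) * N := by rw [hz]
        _ = m i * (2 * Real.pi) := by field_simp
    have h3 : z * (N : ℤ) = m i := by exact_mod_cast h2
    rw [← h3, abs_mul, Nat.abs_cast] at hmN
    have h4 : z ≠ 0 := by
      rintro rfl
      exact hm0 (by rw [← h3]; ring)
    have h5 : 1 ≤ |z| := Int.one_le_abs h4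
    have h6 : (0 : ℤ) < N := by exact_mod_cast hN
    nlinarith
  have hsq := Real.sin_sq_add_cos_sq θ
  have hdet : 0 < (1 - Real.cos θ) ^ 2 + Real.sin θ ^ 2 := by nlinarith
  constructor
  · have : ((1 - Real.cos θ) ^ 2 + Real.sin θ ^ 2) * Ic = 0 := by
      linear_combination (1 - Real.cos θ) * e1 - Real.sin θ * e2
    exact (mul_eq_zero.1 this).resolve_left hdet.ne'
  · have : ((1 - Real.cos θ) ^ 2 + Real.sin θ ^ 2) * Is = 0 := by
      linear_combination Real.sin θ * e1 + (1 - Real.cos θ) * e2
    exact (mul_eq_zero.1 this).resolve_left hdet.ne'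

lemma ph_zero (x : V) : ph 0 x = 0 := by simp [ph]

lemma ph_neg (k : Fin 3 → ℤ) (x : V) : ph (-k) x = -ph k x := by
  simp [ph, Finset.sum_neg_distrib]

lemma ph_add_left (k l : Fin 3 → ℤ) (x : V) : ph (k + l) x = ph k x + ph l x := by
  simp [ph, add_mul, Finset.sum_add_distrib]

lemma ph_sub_left (k l : Fin 3 → ℤ) (x : V) : ph (k - l) x = ph k x - ph l x := by
  rw [sub_eq_add_neg, ph_add_left, ph_neg, sub_eq_add_neg]

/-- A nonnegative, or just normalised, weight with fine periods: the moments of order less than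
`N` are those of the constant function `1`. -/
structure Fine (N : ℕ) (ψ : V → ℝ) : Prop where
  cont : Continuous ψ
  per : Periodic3 ψ
  fine : ∀ (i : Fin 3) (x : V), ψ (x + Pi.single i (2 * Real.pi / N)) = ψ x
  mean : ∫ x in Dom, ψ x = (volume Dom).toReal

lemma Fine.cos_moment {N : ℕ} (hN : 0 < N) {ψ : V → ℝ} (h : Fine N ψ) {m : Fin 3 → ℤ}
    (hm : ∀ i, |m i| < N) :
    ∫ x in Dom, ψ x * Real.cos (ph m x) = if m = 0 then (volume Dom).toReal else 0 := by
  split_ifs with h0
  · subst h0
    simp only [ph_zero, Real.cos_zero, mul_one]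
    exact h.mean
  · obtain ⟨i, hi⟩ : ∃ i, m i ≠ 0 := by
      by_contra hcon
      push Not at hcon
      exact h0 (funext hcon)
    exact (integral_trig_eq_zero h.per h.cont hN h.fine hi (hm i)).1

lemma Fine.sin_moment {N : ℕ} (hN : 0 < N) {ψ : V → ℝ} (h : Fine N ψ) {m : Fin 3 → ℤ}
    (hm : ∀ i, |m i| < N) :
    ∫ x in Dom, ψ x * Real.sin (ph m x) = 0 := by
  by_cases h0 : m = 0
  · subst h0
    simp [ph_zero]
  · obtain ⟨i, hi⟩ : ∃ i, m i ≠ 0 := by
      by_contra hcon
      push Not at hcon
      exact h0 (funext hcon)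
    exact (integral_trig_eq_zero h.per h.cont hN h.fine hi (hm i)).2

lemma cos_periodic (m : Fin 3 → ℤ) : Periodic3 (fun x => Real.cos (ph m x)) := by
  intro j x
  simp only
  rw [ph_add, ph_single, Real.cos_add_int_mul_two_pi]

lemma sin_periodic (m : Fin 3 → ℤ) : Periodic3 (fun x => Real.sin (ph m x)) := by
  intro j x
  simp only
  rw [ph_add, ph_single, Real.sin_add_int_mul_two_pi]

lemma Fine.int_cos {N : ℕ} {ψ : V → ℝ} (h : Fine N ψ) (m : Fin 3 → ℤ) :
    IntegrableOn (fun x => ψ x * Real.cos (ph m x)) Dom := by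
  refine Periodic3.integrableOn ?_ (h.cont.mul (Real.continuous_cos.comp (ph_contDiff m).continuous))
  intro j x
  have := cos_periodic m j x
  simp only at this ⊢
  rw [this, h.per j x]

lemma Fine.int_sin {N : ℕ} {ψ : V → ℝ} (h : Fine N ψ) (m : Fin 3 → ℤ) :
    IntegrableOn (fun x => ψ x * Real.sin (ph m x)) Dom := by
  refine Periodic3.integrableOn ?_ (h.cont.mul (Real.continuous_sin.comp (ph_contDiff m).continuous))
  intro j x
  have := sin_periodic m j x
  simp only at this ⊢
  rw [this, h.per j x]

/-- The weighted integrals of products of two trigonometric functions. -/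
lemma Fine.products {N K : ℕ} (hN : 2 * K < N) {ψ : V → ℝ} (h : Fine N ψ) {k l : Fin 3 → ℤ}
    (hk : ∀ i, |k i| ≤ K) (hl : ∀ i, |l i| ≤ K) :
    ∫ x in Dom, ψ x * (Real.cos (ph k x) * Real.cos (ph l x))
      = ((if k - l = 0 then (volume Dom).toReal else 0)
        + (if k + l = 0 then (volume Dom).toReal else 0)) / 2 ∧
    ∫ x in Dom, ψ x * (Real.sin (ph k x) * Real.cos (ph l x)) = 0 ∧
    ∫ x in Dom, ψ x * (Real.cos (ph k x) * Real.sin (ph l x)) = 0 ∧
    ∫ x in Dom, ψ x * (Real.sin (ph k x) * Real.sin (ph l x))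
      = ((if k - l = 0 then (volume Dom).toReal else 0)
        - (if k + l = 0 then (volume Dom).toReal else 0)) / 2 := by
  have hN0 : 0 < N := by omega
  have hKN : (2 : ℤ) * K < N := by exact_mod_cast hN
  have hsub : ∀ i, |(k - l) i| < N := by
    intro i
    have := abs_sub (k i) (l i)
    have h1 := hk i
    have h2 := hl i
    simp only [Pi.sub_apply]
    omega
  have hadd : ∀ i, |(k + l) i| < N := by
    intro i
    have := abs_add_le (k i) (l i)
    have h1 := hk i
    have h2 := hl i
    simp only [Pi.add_apply]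
    omega
  refine ⟨?_, ?_, ?_, ?_⟩
  · have e : ∀ x, ψ x * (Real.cos (ph k x) * Real.cos (ph l x))
        = (ψ x * Real.cos (ph (k - l) x)) * (1 / 2) + (ψ x * Real.cos (ph (k + l) x)) * (1 / 2) := by
      intro x
      rw [ph_sub_left, ph_add_left, Real.cos_sub, Real.cos_add]; ring
    simp only [e]
    rw [integral_add ((h.int_cos _).mul_const _) ((h.int_cos _).mul_const _), integral_mul_const,
      integral_mul_const, h.cos_moment hN0 hsub, h.cos_moment hN0 hadd]
    ring
  · have e : ∀ x, ψ x * (Real.sin (ph k x) * Real.cos (ph l x))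
        = (ψ x * Real.sin (ph (k - l) x)) * (1 / 2) + (ψ x * Real.sin (ph (k + l) x)) * (1 / 2) := by
      intro x
      rw [ph_sub_left, ph_add_left, Real.sin_sub, Real.sin_add]; ring
    simp only [e]
    rw [integral_add ((h.int_sin _).mul_const _) ((h.int_sin _).mul_const _), integral_mul_const,
      integral_mul_const, h.sin_moment hN0 hsub, h.sin_moment hN0 hadd]
    ring
  · have e : ∀ x, ψ x * (Real.cos (ph k x) * Real.sin (ph l x))
        = (ψ x * Real.sin (ph (k + l) x)) * (1 / 2) - (ψ x * Real.sin (ph (k - l) x)) * (1 / 2) := by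
      intro x
      rw [ph_sub_left, ph_add_left, Real.sin_sub, Real.sin_add]; ring
    simp only [e]
    rw [integral_sub ((h.int_sin _).mul_const _) ((h.int_sin _).mul_const _), integral_mul_const,
      integral_mul_const, h.sin_moment hN0 hsub, h.sin_moment hN0 hadd]
    ring
  · have e : ∀ x, ψ x * (Real.sin (ph k x) * Real.sin (ph l x))
        = (ψ x * Real.cos (ph (k - l) x)) * (1 / 2) - (ψ x * Real.cos (ph (k + l) x)) * (1 / 2) := by
      intro x
      rw [ph_sub_left, ph_add_left, Real.cos_sub, Real.cos_add]; ring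
    simp only [e]
    rw [integral_sub ((h.int_cos _).mul_const _) ((h.int_cos _).mul_const _), integral_mul_const,
      integral_mul_const, h.cos_moment hN0 hsub, h.cos_moment hN0 hadd]
    ring

end Pool.Agent.H708R2.EulerModes
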