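import Pool.Agent.H708R2.EulerModes.Build
import Pool.Agent.H708R2.EulerModes.Bessel
import Pool.Agent.H708R2.EulerSign.Uniq

/-!
# Proof of the theorem on prescribed Fourier modes
-/

open MeasureTheory Set
open scoped ENNReal NNReal Topology Pointwise ContDiff

namespace Pool.Agent.H708R2.EulerModes

open Pool.Agent.H708R2.EulerSign

lemma mem_Dom {x : V} : x ∈ Dom ↔ ∀ i, x i ∈ Ico 0 (2 * Real.pi) := by
  unfold EulerSign.Dom
  rw [ZSpan.mem_fundamentalDomain]
  have hpi : 0 < 2 * Real.pi := by positivity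
  refine forall_congr' fun i => ?_
  have e : bas.repr x i = x i / (2 * Real.pi) := by
    rw [bas, Module.Basis.repr_isUnitSMul]
    simp [Units.smul_def, div_eq_inv_mul]
  rw [e, mem_Ico, mem_Ico, le_div_iff₀ hpi, div_lt_iff₀ hpi, zero_mul, one_mul]

/-- The cube `[-π, π]³` may replace the period cell. -/
lemma cube_ae : (volume.restrict cube : Measure V)
    = volume.restrict ((fun x : V => x + fun _ => -Real.pi) '' Dom) := by
  apply Measure.restrict_congr_set
  have e : ((fun x : V => x + fun _ => -Real.pi) '' Dom)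
      = Set.pi univ (fun _ : Fin 3 => Ico (-Real.pi) Real.pi) := by
    ext y
    constructor
    · rintro ⟨x, hx, rfl⟩ i _
      have := mem_Dom.1 hx i
      simp only [Pi.add_apply, mem_Ico] at this ⊢
      constructor <;> linarith
    · intro hy
      refine ⟨y + fun _ => Real.pi, mem_Dom.2 fun i => ?_, ?_⟩
      · have := hy i (mem_univ i)
        simp only [Pi.add_apply, mem_Ico] at this ⊢
        constructor <;> linarith
      · ext i; simp
  rw [e]
  exact (Measure.univ_pi_Ico_ae_eq_Icc (μ := fun _ : Fin 3 => (volume : Measure ℝ))).symm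

lemma cube_fd : IsAddFundamentalDomain EulerSign.Lat
    ((fun x : V => x + fun _ => -Real.pi) '' Dom) (volume : Measure V) := by
  refine image_fd ?_ ?_ ?_
  · exact (Equiv.addRight (fun _ : Fin 3 => -Real.pi)).bijective
  · fun_prop
  · intro g _ x
    abel

lemma integral_cube {E : Type*} [NormedAddCommGroup E] [NormedSpace ℝ E] {f : V → E}
    (hp : Periodic3 f) : ∫ x in cube, f x = ∫ x in Dom, f x := by
  rw [cube_ae]
  exact cube_fd.setIntegral_eq dom_fd (lat_invariant hp)

lemma memLp_dom {F : Type*} [NormedAddCommGroup F] {f : V → F} (hp : Periodic3 f)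
    (h : MemLp f 2 (volume.restrict cube)) : MemLp f 2 (volume.restrict Dom) := by
  rw [cube_ae] at h
  have h1 : AEStronglyMeasurable f (volume.restrict Dom) :=
    (cube_fd.aestronglyMeasurable_on_iff dom_fd (lat_invariant hp)).1 h.1
  rw [memLp_two_iff_integrable_sq_norm h1]
  have h2 := (memLp_two_iff_integrable_sq_norm h.1).1 h
  have hp2 : Periodic3 (fun x => ‖f x‖ ^ 2) := by
    intro i x; simp only; rw [hp i x]
  exact (cube_fd.integrableOn_iff dom_fd (lat_invariant hp2)).1 h2

lemma cosCoeff_eq {g : V → ℝ} (hp : Periodic3 g) (l : Fin 3 → ℤ) :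
    cosCoeff l g = ∫ x in Dom, g x * Real.cos (ph l x) := by
  refine integral_cube ?_
  intro i x
  have := cos_periodic l i x
  simp only at this ⊢
  rw [this, hp i x]

lemma sinCoeff_eq {g : V → ℝ} (hp : Periodic3 g) (l : Fin 3 → ℤ) :
    sinCoeff l g = ∫ x in Dom, g x * Real.sin (ph l x) := by
  refine integral_cube ?_
  intro i x
  have := sin_periodic l i x
  simp only at this ⊢
  rw [this, hp i x]

lemma comp_periodic {u : V → V} (hp : Periodic3 u) (i : Fin 3) : Periodic3 (fun x => u x i) := by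
  intro j x; simp only; rw [hp j x]

lemma memLp_comp {u : V → V} {μ : Measure V} (h : MemLp u 2 μ) (i : Fin 3) :
    MemLp (fun x => u x i) 2 μ :=
  h.of_le ((continuous_apply i).comp_aestronglyMeasurable h.1)
    (Filter.Eventually.of_forall fun x => norm_le_pi_norm (u x) i)

lemma fderiv_ph (l : Fin 3 → ℤ) (x : V) :
    HasFDerivAt (ph l) (∑ i, (l i : ℝ) • (ContinuousLinearMap.proj i : V →L[ℝ] ℝ)) x := by
  unfold ph
  refine HasFDerivAt.fun_sum fun i _ => ?_
  exact ((ContinuousLinearMap.proj (R := ℝ) (φ := fun _ : Fin 3 => ℝ) i).hasFDerivAt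
    (x := x)).const_mul (l i : ℝ)

/-- The Fourier coefficients of a weakly divergence-free field are orthogonal to the frequency. -/
lemma ph_coeff {u : V → V} (hp : Periodic3 u) (h2 : MemLp u 2 (volume.restrict cube))
    (hdiv : WeakDivFree u) (l : Fin 3 → ℤ) :
    ph l (fun i => ∫ x in Dom, u x i * Real.cos (ph l x)) = 0 ∧
    ph l (fun i => ∫ x in Dom, u x i * Real.sin (ph l x)) = 0 := by
  have hu2 := memLp_dom hp h2
  have hi : ∀ i, Integrable (fun x => u x i) (volume.restrict Dom) := fun i =>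
    (memLp_comp hu2 i).integrable (by norm_num)
  have ic : ∀ i, Integrable (fun x => u x i * Real.cos (ph l x)) (volume.restrict Dom) := by
    intro i
    refine (hi i).mul_bdd (c := 1) (Real.continuous_cos.comp (ph_contDiff l).continuous).aestronglyMeasurable
      (Filter.Eventually.of_forall fun x => ?_)
    exact Real.abs_cos_le_one _
  have is : ∀ i, Integrable (fun x => u x i * Real.sin (ph l x)) (volume.restrict Dom) := by
    intro i
    refine (hi i).mul_bdd (c := 1) (Real.continuous_sin.comp (ph_contDiff l).continuous).aestronglyMeasurable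
      (Filter.Eventually.of_forall fun x => ?_)
    exact Real.abs_sin_le_one _
  constructor
  · have h := hdiv (fun x => Real.sin (ph l x)) (Real.contDiff_sin.comp (ph_contDiff l))
      (sin_periodic l)
    have e : ∀ x, fderiv ℝ (fun x => Real.sin (ph l x)) x (u x)
        = ∑ i, (l i : ℝ) * (u x i * Real.cos (ph l x)) := by
      intro x
      have := ((Real.hasDerivAt_sin (ph l x)).comp_hasFDerivAt x (fderiv_ph l x)).fderiv
      have h' : fderiv ℝ (fun x => Real.sin (ph l x)) x
          = Real.cos (ph l x) • ∑ i, (l i : ℝ) • (ContinuousLinearMap.proj i : V →L[ℝ] ℝ) := this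
      rw [h']
      simp only [smul_apply, sum_apply, ContinuousLinearMap.proj_apply, smul_eq_mul,
        Finset.mul_sum]
      exact Finset.sum_congr rfl fun i _ => by ring
    simp only [e] at h
    rw [integral_cube] at h
    · rw [integral_finsetSum _ fun i _ => (ic i).const_mul _] at h
      simp only [integral_const_mul] at h
      exact h
    · intro j x
      have := cos_periodic l j x
      simp only at this ⊢
      rw [this, hp j x]
  · have h := hdiv (fun x => Real.cos (ph l x)) (Real.contDiff_cos.comp (ph_contDiff l))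
      (cos_periodic l)
    have e : ∀ x, fderiv ℝ (fun x => Real.cos (ph l x)) x (u x)
        = -∑ i, (l i : ℝ) * (u x i * Real.sin (ph l x)) := by
      intro x
      have := ((Real.hasDerivAt_cos (ph l x)).comp_hasFDerivAt x (fderiv_ph l x)).fderiv
      have h' : fderiv ℝ (fun x => Real.cos (ph l x)) x
          = (-Real.sin (ph l x)) • ∑ i, (l i : ℝ) • (ContinuousLinearMap.proj i : V →L[ℝ] ℝ) := this
      rw [h']
      simp only [smul_apply, sum_apply, ContinuousLinearMap.proj_apply, smul_eq_mul,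
        Finset.mul_sum, ← Finset.sum_neg_distrib]
      exact Finset.sum_congr rfl fun i _ => by ring
    simp only [e] at h
    rw [integral_cube] at h
    · rw [integral_neg, neg_eq_zero, integral_finsetSum _ fun i _ => (is i).const_mul _] at h
      simp only [integral_const_mul] at h
      exact h
    · intro j x
      have := sin_periodic l j x
      simp only at this ⊢
      rw [this, hp j x]

/-- Powers with negative exponent tend to zero. -/
lemma exists_pow_le (s : ℝ) (hs : 0 < s) (C ε : ℝ) (hε : 0 < ε) :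
    ∃ n₀ : ℕ, ∀ n : ℕ, n₀ ≤ n → (1 + (n : ℝ) ^ 2) ^ (-s) * C ≤ ε := by
  have h1 : Filter.Tendsto (fun n : ℕ => (1 + (n : ℝ) ^ 2) ^ (-s) * C) Filter.atTop (𝓝 (0 * C)) := by
    refine Filter.Tendsto.mul_const C ?_
    refine (tendsto_rpow_neg_atTop hs).comp ?_
    refine Filter.tendsto_atTop_mono (fun n : ℕ => ?_) tendsto_natCast_atTop_atTop
    have : (n : ℝ) ≤ 1 + (n : ℝ) ^ 2 := by nlinarith [sq_nonneg ((n : ℝ) - 1)]
    exact this
  rw [zero_mul] at h1
  have h2 := h1.eventually (Iic_mem_nhds hε)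
  obtain ⟨n₀, hn⟩ := Filter.eventually_atTop.1 h2
  exact ⟨n₀, fun n hle => hn n hle⟩

theorem main (u₀ : V → V) (hper : Periodic3 u₀) (hL2 : MemLp u₀ 2 (volume.restrict cube))
    (hdiv : WeakDivFree u₀) (K : ℕ) (s ε : ℝ) (hs : 0 < s) (hε : 0 < ε) :
    ∃ v : V → V, ContDiff ℝ ∞ v ∧ IsClassicalSolution univ (fun _ => v) (fun _ _ => 0) ∧
      SameModes K v u₀ ∧ HNegClose s ε v u₀ ∧
      (∀ (T : ℝ) (w : ℝ → V → V) (q : ℝ → V → ℝ), IsClassicalSolution (Ico 0 T) w q →
        ∀ t₀ ∈ Ico 0 T, w t₀ = v → ∀ t ∈ Ico 0 T, w t = v) := by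
  classical
  have hu2 := memLp_dom hper hL2
  set vol : ℝ := (volume Dom).toReal with hvol
  have hvol0 : 0 < vol := vol_pos
  -- the energy of `u₀`
  set Eu : ℝ := ∑ i, vol * ∫ x in Dom, (u₀ x i) ^ 2 with hEu
  have hEu0 : 0 ≤ Eu := Finset.sum_nonneg fun i _ => by
    have : 0 ≤ ∫ x in Dom, (u₀ x i) ^ 2 := integral_nonneg fun x => sq_nonneg _
    positivity
  obtain ⟨K₁, hK₁⟩ := exists_pow_le s hs (2 * Eu) (ε ^ 2 / 2) (by positivity)
  set K' := max K K₁ with hK'
  let A : (Fin 3 → ℤ) → V := fun l i => ∫ x in Dom, u₀ x i * Real.cos (ph l x)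
  let B : (Fin 3 → ℤ) → V := fun l i => ∫ x in Dom, u₀ x i * Real.sin (ph l x)
  have hA : ∀ k ∈ Bx K', ph k (A k) = 0 := fun k _ => (ph_coeff hper hL2 hdiv k).1
  have hB : ∀ k ∈ Bx K', ph k (B k) = 0 := fun k _ => (ph_coeff hper hL2 hdiv k).2
  have hAs : ∀ k ∈ Bx K', A (-k) = A k := by
    intro k _
    ext i
    simp only [A, ph_neg, Real.cos_neg]
  have hBs : ∀ k ∈ Bx K', B (-k) = -B k := by
    intro k _
    ext i
    simp only [B, ph_neg, Real.sin_neg, mul_neg, Pi.neg_apply]
    rw [integral_neg]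
  obtain ⟨C, hC0, hC⟩ := exists_steady K' A B hA hB hAs hBs
  obtain ⟨N₁, hN₁⟩ := exists_pow_le s hs (2 * (3 * (vol * (C ^ 2 * vol)))) (ε ^ 2 / 2)
    (by positivity)
  set N := 2 * K' + 1 + N₁ with hN
  obtain ⟨v, hvs, hvp, hvdiv, hvst, hvb, hvm, hvz⟩ := hC N (by omega)
  have hv2 : ∀ i, MemLp (fun x => v x i) 2 (volume.restrict Dom) := by
    intro i
    refine MemLp.of_bound ((continuous_apply i).comp hvs.continuous).aestronglyMeasurable C
      (Filter.Eventually.of_forall fun x => ?_)
    exact (norm_le_pi_norm (v x) i).trans (hvb x)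
  refine ⟨v, hvs, ?_, ?_, ?_, ?_⟩
  · refine ⟨?_, contDiffOn_const, fun t _ => hvp, fun t _ i x => rfl, fun t _ => hvdiv,
      fun t _ x i => ?_⟩
    · exact ((hvs.of_le (by exact_mod_cast le_top)).comp contDiff_snd).contDiffOn
    · rw [derivWithin_univ, deriv_const, sum_mul_clm, hvst x]
      simp
  · intro l hl i
    have hl' : l ∈ Bx K' := by
      rw [mem_Bx]
      intro i
      refine (hl i).trans ?_
      exact_mod_cast le_max_left K K₁
    obtain ⟨h1, h2⟩ := hvm l hl' i
    rw [cosCoeff_eq (comp_periodic hvp i), cosCoeff_eq (comp_periodic hper i),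
      sinCoeff_eq (comp_periodic hvp i), sinCoeff_eq (comp_periodic hper i)]
    exact ⟨h1, h2⟩
  · intro S
    have hsubp : ∀ i, Periodic3 (fun x => v x i - u₀ x i) := by
      intro i j x; simp only; rw [hvp j x, hper j x]
    have vi : ∀ i, Integrable (fun x => v x i) (volume.restrict Dom) := fun i =>
      (hv2 i).integrable (by norm_num)
    have ui : ∀ i, Integrable (fun x => u₀ x i) (volume.restrict Dom) := fun i =>
      (memLp_comp hu2 i).integrable (by norm_num)
    have mulc : ∀ (g : V → ℝ) (l : Fin 3 → ℤ), Integrable g (volume.restrict Dom) →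
        Integrable (fun x => g x * Real.cos (ph l x)) (volume.restrict Dom) := by
      intro g l hg
      refine hg.mul_bdd (c := 1)
        (Real.continuous_cos.comp (ph_contDiff l).continuous).aestronglyMeasurable
        (Filter.Eventually.of_forall fun x => ?_)
      exact Real.abs_cos_le_one _
    have muls : ∀ (g : V → ℝ) (l : Fin 3 → ℤ), Integrable g (volume.restrict Dom) →
        Integrable (fun x => g x * Real.sin (ph l x)) (volume.restrict Dom) := by
      intro g l hg
      refine hg.mul_bdd (c := 1)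
        (Real.continuous_sin.comp (ph_contDiff l).continuous).aestronglyMeasurable
        (Filter.Eventually.of_forall fun x => ?_)
      exact Real.abs_sin_le_one _
    have hcd : ∀ l i, cosCoeff l (fun x => v x i - u₀ x i)
        = (∫ x in Dom, v x i * Real.cos (ph l x)) - ∫ x in Dom, u₀ x i * Real.cos (ph l x) := by
      intro l i
      rw [cosCoeff_eq (hsubp i), ← integral_sub (mulc _ l (vi i)) (mulc _ l (ui i))]
      congr 1
      ext1 x
      ring
    have hsd : ∀ l i, sinCoeff l (fun x => v x i - u₀ x i)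
        = (∫ x in Dom, v x i * Real.sin (ph l x)) - ∫ x in Dom, u₀ x i * Real.sin (ph l x) := by
      intro l i
      rw [sinCoeff_eq (hsubp i), ← integral_sub (muls _ l (vi i)) (muls _ l (ui i))]
      congr 1
      ext1 x
      ring
    set av : (Fin 3 → ℤ) → Fin 3 → ℝ := fun l i =>
      (∫ x in Dom, v x i * Real.cos (ph l x)) ^ 2 + (∫ x in Dom, v x i * Real.sin (ph l x)) ^ 2
      with hav
    set au : (Fin 3 → ℤ) → Fin 3 → ℝ := fun l i =>
      (∫ x in Dom, u₀ x i * Real.cos (ph l x)) ^ 2 + (∫ x in Dom, u₀ x i * Real.sin (ph l x)) ^ 2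
      with hau
    have hav0 : ∀ l i, 0 ≤ av l i := fun l i => by positivity
    have hau0 : ∀ l i, 0 ≤ au l i := fun l i => by positivity
    -- weights
    have hwt : ∀ (l : Fin 3 → ℤ) (n : ℕ), (∃ i, (n : ℤ) ≤ |l i|) →
        (1 + ∑ i, (l i : ℝ) ^ 2) ^ (-s) ≤ (1 + (n : ℝ) ^ 2) ^ (-s) := by
      rintro l n ⟨i, hi⟩
      apply Real.rpow_le_rpow_of_nonpos (by positivity) _ (by linarith)
      have h1 : (l i : ℝ) ^ 2 ≤ ∑ i, (l i : ℝ) ^ 2 :=
        Finset.single_le_sum (f := fun i => (l i : ℝ) ^ 2) (fun _ _ => sq_nonneg _)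
          (Finset.mem_univ i)
      have h2 : (n : ℝ) ≤ |(l i : ℝ)| := by exact_mod_cast hi
      have h3 : (n : ℝ) ^ 2 ≤ (l i : ℝ) ^ 2 := by
        rw [← sq_abs (l i : ℝ)]
        gcongr
      linarith
    have hterm : ∀ l ∈ S, (1 + ∑ i, (l i : ℝ) ^ 2) ^ (-s) *
        ∑ i, (cosCoeff l (fun x => v x i - u₀ x i) ^ 2 + sinCoeff l (fun x => v x i - u₀ x i) ^ 2)
        ≤ ∑ i, ((1 + ((N - K' : ℕ) : ℝ) ^ 2) ^ (-s) * (2 * av l i)
          + (1 + (K' : ℝ) ^ 2) ^ (-s) * (2 * au l i)) := by
      intro l _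
      rw [Finset.mul_sum]
      refine Finset.sum_le_sum fun i _ => ?_
      have hw0 : 0 ≤ (1 + ∑ i, (l i : ℝ) ^ 2) ^ (-s) := by positivity
      have hr : 0 ≤ (1 + ((N - K' : ℕ) : ℝ) ^ 2) ^ (-s) * (2 * av l i)
          + (1 + (K' : ℝ) ^ 2) ^ (-s) * (2 * au l i) := by
        have := hav0 l i
        have := hau0 l i
        positivity
      by_cases hl : l ∈ Bx K'
      · obtain ⟨h1, h2⟩ := hvm l hl i
        have z1 : cosCoeff l (fun x => v x i - u₀ x i) = 0 := by
          rw [hcd, h1]; simp [A]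
        have z2 : sinCoeff l (fun x => v x i - u₀ x i) = 0 := by
          rw [hsd, h2]; simp [B]
        rw [z1, z2]
        simpa using hr
      · have hbig : ∃ i, ((K' : ℕ) : ℤ) ≤ |l i| := by
          rw [mem_Bx] at hl
          push Not at hl
          obtain ⟨i, hi⟩ := hl
          exact ⟨i, hi.le⟩
        have hw1 := hwt l K' hbig
        have hsplit : cosCoeff l (fun x => v x i - u₀ x i) ^ 2
            + sinCoeff l (fun x => v x i - u₀ x i) ^ 2 ≤ 2 * av l i + 2 * au l i := by
          rw [hcd, hsd]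
          simp only [hav, hau]
          nlinarith [sq_nonneg ((∫ x in Dom, v x i * Real.cos (ph l x))
            + ∫ x in Dom, u₀ x i * Real.cos (ph l x)),
            sq_nonneg ((∫ x in Dom, v x i * Real.sin (ph l x))
            + ∫ x in Dom, u₀ x i * Real.sin (ph l x))]
        have hfirst : (1 + ∑ i, (l i : ℝ) ^ 2) ^ (-s) * (2 * av l i)
            ≤ (1 + ((N - K' : ℕ) : ℝ) ^ 2) ^ (-s) * (2 * av l i) := by
          by_cases hfar : ∃ i, ((N - K' : ℕ) : ℤ) ≤ |l i|
          · have := hwt l (N - K') hfar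
            have h0 := hav0 l i
            gcongr
          · have hz : av l i = 0 := by
              push Not at hfar
              have hh : ∀ i, |l i| + K' < N := by
                intro i
                have := hfar i
                omega
              obtain ⟨y1, y2⟩ := hvz l hl hh i
              simp only [hav]
              rw [y1, y2]
              ring
            rw [hz]
            simp
        have hsecond : (1 + ∑ i, (l i : ℝ) ^ 2) ^ (-s) * (2 * au l i)
            ≤ (1 + (K' : ℝ) ^ 2) ^ (-s) * (2 * au l i) := by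
          have h0 := hau0 l i
          gcongr
        calc (1 + ∑ i, (l i : ℝ) ^ 2) ^ (-s) *
              (cosCoeff l (fun x => v x i - u₀ x i) ^ 2 + sinCoeff l (fun x => v x i - u₀ x i) ^ 2)
            ≤ (1 + ∑ i, (l i : ℝ) ^ 2) ^ (-s) * (2 * av l i + 2 * au l i) := by gcongr
          _ = (1 + ∑ i, (l i : ℝ) ^ 2) ^ (-s) * (2 * av l i)
              + (1 + ∑ i, (l i : ℝ) ^ 2) ^ (-s) * (2 * au l i) := by ring
          _ ≤ _ := add_le_add hfirst hsecond
    refine (Finset.sum_le_sum hterm).trans ?_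
    rw [Finset.sum_comm]
    simp only [Finset.sum_add_distrib, ← Finset.mul_sum]
    -- Bessel
    have b1 : ∑ i, ∑ l ∈ S, av l i ≤ 3 * (vol * (C ^ 2 * vol)) := by
      have hb : ∀ i, ∑ l ∈ S, av l i ≤ vol * (C ^ 2 * vol) := by
        intro i
        refine (bessel (hv2 i) S).trans ?_
        gcongr
        have h1 : ‖∫ x in Dom, v x i ^ 2‖ ≤ C ^ 2 * (volume.real Dom) := by
          refine norm_setIntegral_le_of_norm_le_const dom_lt_top fun x _ => ?_
          rw [norm_pow]
          gcongr
          exact (norm_le_pi_norm (v x) i).trans (hvb x)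
        exact (le_abs_self _).trans h1
      calc ∑ i, ∑ l ∈ S, av l i ≤ ∑ _i : Fin 3, vol * (C ^ 2 * vol) :=
            Finset.sum_le_sum fun i _ => hb i
        _ = 3 * (vol * (C ^ 2 * vol)) := by simp
    have b2 : ∑ i, ∑ l ∈ S, au l i ≤ Eu :=
      Finset.sum_le_sum fun i _ => bessel (memLp_comp hu2 i) S
    have w1 := hN₁ (N - K') (by omega)
    have w2 := hK₁ K' (le_max_right K K₁)
    calc (1 + ((N - K' : ℕ) : ℝ) ^ 2) ^ (-s) * (2 * ∑ i, ∑ l ∈ S, av l i)
          + (1 + (K' : ℝ) ^ 2) ^ (-s) * (2 * ∑ i, ∑ l ∈ S, au l i)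
        ≤ (1 + ((N - K' : ℕ) : ℝ) ^ 2) ^ (-s) * (2 * (3 * (vol * (C ^ 2 * vol))))
          + (1 + (K' : ℝ) ^ 2) ^ (-s) * (2 * Eu) := by gcongr
      _ ≤ ε ^ 2 / 2 + ε ^ 2 / 2 := add_le_add w1 w2
      _ = ε ^ 2 := by ring
  · intro T w q hw t₀ ht₀ hwt
    have hv1 : ContDiff ℝ 1 v := hvs.of_le (by exact_mod_cast le_top)
    obtain ⟨Cg, hCg0, hCg⟩ := (hvp.grad (v := v)).bounded (E := Fin 3 → Fin 3 → ℝ)
      (continuous_grad hv1)
    have hK : ∀ t ∈ Ico 0 T, ∀ x i j, |grad ((fun _ : ℝ => v) t) x i j| ≤ Cg := by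
      intro t _ x i j
      have h1 := norm_le_pi_norm (grad v x i) j
      have h2 := norm_le_pi_norm (grad v x : Fin 3 → Fin 3 → ℝ) i
      exact h1.trans (h2.trans (hCg x))
    exact EulerSign.unique (u := fun _ => v) hw (hv1.comp contDiff_snd) (fun _ => hvp)
      (fun _ x => hvdiv x)
      (fun t x i => by
        rw [deriv_const, sum_mul_clm, hvst x]; simp) hK ht₀ hwt

end Pool.Agent.H708R2.EulerModes
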