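import Pool.Agent.H708R2.EulerSign.Jac
import Pool.Agent.H708R2.EulerModes.Defs

/-!
# Disjoint pipes in `𝕋³`

For a finite family of integer directions `ξ_j` we construct smooth periodic functions `φ_j ≥ 0`
which are invariant under translations along `ξ_j`, with mutually disjoint supports. The closed
lines around which they are supported are made disjoint by taking their phases algebraically
independent enough (powers of a transcendental number).
-/

open MeasureTheory Set
open scoped ENNReal NNReal Topology Pointwise ContDiff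

namespace Pool.Agent.H708R2.EulerModes

open Pool.Agent.H708R2.EulerSign

/-- The real vector with the same entries as the integer vector `k`. -/
def rv (k : Fin 3 → ℤ) : V := fun i => (k i : ℝ)

lemma ph_add (k : Fin 3 → ℤ) (x y : V) : ph k (x + y) = ph k x + ph k y := by
  simp [ph, mul_add, Finset.sum_add_distrib]

lemma ph_smul (k : Fin 3 → ℤ) (s : ℝ) (x : V) : ph k (s • x) = s * ph k x := by
  simp only [ph, Pi.smul_apply, smul_eq_mul, Finset.mul_sum]
  exact Finset.sum_congr rfl fun i _ => by ring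

lemma ph_single (k : Fin 3 → ℤ) (i : Fin 3) (c : ℝ) : ph k (Pi.single i c) = k i * c := by
  simp [ph, Pi.single_apply]

lemma ph_contDiff (k : Fin 3 → ℤ) : ContDiff ℝ ∞ (ph k) := by
  unfold ph
  exact ContDiff.sum fun i _ => contDiff_const.mul (contDiff_apply ℝ ℝ i)

lemma ph_lin {ι : Type*} (s : Finset ι) (g : ι → ℤ) (k : ι → Fin 3 → ℤ) (x : V) :
    ph (∑ i ∈ s, g i • k i) x = ∑ i ∈ s, (g i : ℝ) * ph (k i) x := by
  simp only [ph, Finset.sum_apply, Pi.smul_apply, smul_eq_mul, Int.cast_sum, Int.cast_mul,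
    Finset.sum_mul, Finset.mul_sum]
  rw [Finset.sum_comm]
  exact Finset.sum_congr rfl fun i _ => Finset.sum_congr rfl fun j _ => by ring

/-- The phases. -/
noncomputable def phs (j : ℕ) : ℝ := 2 * Real.pi * (liouvilleNumber 2) ^ j

/-- There is no point lying on the lines number `i` and number `j ≠ i`. -/
lemma no_common_point (a b c d : Fin 3 → ℤ) (i j : ℕ) (hij : i ≠ j) (x : V)
    (h1 : ∃ z : ℤ, (z : ℝ) * (2 * Real.pi) = ph a x - phs (2 * i + 1))
    (h2 : ∃ z : ℤ, (z : ℝ) * (2 * Real.pi) = ph b x - phs (2 * i + 2))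
    (h3 : ∃ z : ℤ, (z : ℝ) * (2 * Real.pi) = ph c x - phs (2 * j + 1))
    (h4 : ∃ z : ℤ, (z : ℝ) * (2 * Real.pi) = ph d x - phs (2 * j + 2)) : False := by
  obtain ⟨z1, h1⟩ := h1
  obtain ⟨z2, h2⟩ := h2
  obtain ⟨z3, h3⟩ := h3
  obtain ⟨z4, h4⟩ := h4
  have hdep : ¬ LinearIndependent ℤ ![a, b, c, d] := by
    intro h
    have := h.fintype_card_le_finrank
    simp at this
  rw [Fintype.not_linearIndependent_iff] at hdep
  obtain ⟨g, hg, l, hl⟩ := hdep
  have hsum := ph_lin Finset.univ g ![a, b, c, d] x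
  rw [hg] at hsum
  have h0 : ph 0 x = 0 := by simp [ph]
  rw [h0, Fin.sum_univ_four] at hsum
  simp only [Matrix.cons_val_zero, Matrix.cons_val_one, Matrix.cons_val] at hsum
  have e1 : ph a x = z1 * (2 * Real.pi) + phs (2 * i + 1) := by linarith
  have e2 : ph b x = z2 * (2 * Real.pi) + phs (2 * i + 2) := by linarith
  have e3 : ph c x = z3 * (2 * Real.pi) + phs (2 * j + 1) := by linarith
  have e4 : ph d x = z4 * (2 * Real.pi) + phs (2 * j + 2) := by linarith
  rw [e1, e2, e3, e4] at hsum
  set τ := liouvilleNumber 2 with hτ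
  have hpi : (2 * Real.pi) ≠ 0 := by positivity
  let P : Polynomial ℤ := Polynomial.monomial (2 * i + 1) (g 0) + Polynomial.monomial (2 * i + 2) (g 1)
    + Polynomial.monomial (2 * j + 1) (g 2) + Polynomial.monomial (2 * j + 2) (g 3)
    + Polynomial.C (g 0 * z1 + g 1 * z2 + g 2 * z3 + g 3 * z4)
  have hP : Polynomial.aeval τ P = 0 := by
    simp only [P, map_add, Polynomial.aeval_monomial, Polynomial.aeval_C]
    simp only [phs] at hsum
    apply mul_left_cancel₀ hpi
    simp only [eq_intCast, Int.cast_mul]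
    linear_combination -hsum
  have htr := transcendental_liouvilleNumber (le_refl 2)
  have hP0 : P = 0 := by
    by_contra hne
    exact htr ⟨P, hne, hP⟩
  have c1 : P.coeff (2 * i + 1) = g 0 := by
    simp only [P, Polynomial.coeff_add, Polynomial.coeff_monomial, Polynomial.coeff_C]
    rw [if_pos trivial, if_neg (by omega), if_neg (by omega), if_neg (by omega), if_neg (by omega)]
    ring
  have c2 : P.coeff (2 * i + 2) = g 1 := by
    simp only [P, Polynomial.coeff_add, Polynomial.coeff_monomial, Polynomial.coeff_C]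
    rw [if_neg (by omega), if_pos trivial, if_neg (by omega), if_neg (by omega), if_neg (by omega)]
    ring
  have c3 : P.coeff (2 * j + 1) = g 2 := by
    simp only [P, Polynomial.coeff_add, Polynomial.coeff_monomial, Polynomial.coeff_C]
    rw [if_neg (by omega), if_neg (by omega), if_pos trivial, if_neg (by omega), if_neg (by omega)]
    ring
  have c4 : P.coeff (2 * j + 2) = g 3 := by
    simp only [P, Polynomial.coeff_add, Polynomial.coeff_monomial, Polynomial.coeff_C]
    rw [if_neg (by omega), if_neg (by omega), if_neg (by omega), if_pos trivial, if_neg (by omega)]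
    ring
  rw [hP0, Polynomial.coeff_zero] at c1 c2 c3 c4
  fin_cases l
  · exact hl c1.symm
  · exact hl c2.symm
  · exact hl c3.symm
  · exact hl c4.symm

/-- The function vanishing exactly on the lines number `j`. -/
noncomputable def gfun (a b : Fin 3 → ℤ) (j : ℕ) (x : V) : ℝ :=
  (1 - Real.cos (ph a x - phs (2 * j + 1))) + (1 - Real.cos (ph b x - phs (2 * j + 2)))

lemma gfun_nonneg (a b : Fin 3 → ℤ) (j : ℕ) (x : V) : 0 ≤ gfun a b j x := by
  have h1 := Real.cos_le_one (ph a x - phs (2 * j + 1))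
  have h2 := Real.cos_le_one (ph b x - phs (2 * j + 2))
  unfold gfun; linarith

lemma gfun_contDiff (a b : Fin 3 → ℤ) (j : ℕ) : ContDiff ℝ ∞ (gfun a b j) := by
  unfold gfun
  exact (contDiff_const.sub (Real.contDiff_cos.comp ((ph_contDiff a).sub contDiff_const))).add
    (contDiff_const.sub (Real.contDiff_cos.comp ((ph_contDiff b).sub contDiff_const)))

lemma gfun_periodic (a b : Fin 3 → ℤ) (j : ℕ) : Periodic3 (gfun a b j) := by
  intro i x
  unfold gfun
  have e : ∀ (k : Fin 3 → ℤ) (c : ℝ), Real.cos (ph k (x + Pi.single i (2 * Real.pi)) - c)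
      = Real.cos (ph k x - c) := by
    intro k c
    rw [ph_add, ph_single]
    have : ph k x + (k i : ℝ) * (2 * Real.pi) - c = (ph k x - c) + (k i : ℝ) * (2 * Real.pi) := by
      ring
    rw [this, Real.cos_add_int_mul_two_pi]
  rw [e, e]

lemma gfun_translate {a b : Fin 3 → ℤ} {ξ : Fin 3 → ℤ} (ha : ph a (rv ξ) = 0)
    (hb : ph b (rv ξ) = 0) (j : ℕ) (x : V) (s : ℝ) :
    gfun a b j (x + s • rv ξ) = gfun a b j x := by
  unfold gfun
  rw [ph_add, ph_add, ph_smul, ph_smul, ha, hb]
  simp

lemma gfun_add_pos (a b c d : Fin 3 → ℤ) {i j : ℕ} (hij : i ≠ j) (x : V) :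
    0 < gfun a b i x + gfun c d j x := by
  have h1 := gfun_nonneg a b i x
  have h2 := gfun_nonneg c d j x
  rcases h1.lt_or_eq with h1' | h1'
  · linarith
  rcases h2.lt_or_eq with h2' | h2'
  · linarith
  exfalso
  have c1 := Real.cos_le_one (ph a x - phs (2 * i + 1))
  have c2 := Real.cos_le_one (ph b x - phs (2 * i + 2))
  have c3 := Real.cos_le_one (ph c x - phs (2 * j + 1))
  have c4 := Real.cos_le_one (ph d x - phs (2 * j + 2))
  unfold gfun at h1' h2'
  exact no_common_point a b c d i j hij x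
    ((Real.cos_eq_one_iff _).1 (by linarith)) ((Real.cos_eq_one_iff _).1 (by linarith))
    ((Real.cos_eq_one_iff _).1 (by linarith)) ((Real.cos_eq_one_iff _).1 (by linarith))

/-- A continuous positive periodic function is bounded below by a positive constant. -/
lemma Periodic3.exists_pos_le {f : V → ℝ} (hp : Periodic3 f) (hc : Continuous f)
    (hpos : ∀ x, 0 < f x) : ∃ δ : ℝ, 0 < δ ∧ ∀ x, δ ≤ f x := by
  have hp' : Periodic3 (fun x => (f x)⁻¹) := by
    intro i x; simp only; rw [hp i x]
  obtain ⟨C, hC0, hC⟩ := hp'.bounded (hc.inv₀ fun x => (hpos x).ne')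
  refine ⟨(C + 1)⁻¹, by positivity, fun x => ?_⟩
  have h1 := hC x
  rw [Real.norm_eq_abs, abs_of_pos (inv_pos.2 (hpos x))] at h1
  rw [inv_le_comm₀ (by positivity) (hpos x)]
  linarith

/-- Existence of disjoint pipes. -/
theorem exists_pipes {ι : Type} [Fintype ι] (ξ m n : ι → Fin 3 → ℤ)
    (hm : ∀ j, ph (m j) (rv (ξ j)) = 0) (hn : ∀ j, ph (n j) (rv (ξ j)) = 0)
    (hs : ∀ j (α β : ℝ), ∃ x, ph (m j) x = α ∧ ph (n j) x = β) :
    ∃ φ : ι → V → ℝ, (∀ j, ContDiff ℝ ∞ (φ j)) ∧ (∀ j, Periodic3 (φ j)) ∧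
      (∀ j x, 0 ≤ φ j x) ∧ (∀ j x, φ j x ≤ 1) ∧
      (∀ j x (s : ℝ), φ j (x + s • rv (ξ j)) = φ j x) ∧
      (∀ i j, i ≠ j → ∀ x, φ i x = 0 ∨ φ j x = 0) ∧ (∀ j, ∃ x, φ j x ≠ 0) := by
  classical
  let e : ι ≃ Fin (Fintype.card ι) := Fintype.equivFin ι
  let G : ι → V → ℝ := fun j => gfun (m j) (n j) (e j)
  have hδ : ∀ q : ι × ι, ∃ δ : ℝ, 0 < δ ∧ (q.1 ≠ q.2 → ∀ x, δ ≤ G q.1 x + G q.2 x) := by
    intro q
    by_cases hq : q.1 = q.2
    · exact ⟨1, one_pos, fun h => absurd hq h⟩
    · have hne : ((e q.1 : Fin _) : ℕ) ≠ ((e q.2 : Fin _) : ℕ) := by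
        intro h
        exact hq (e.injective (Fin.ext h))
      have hp : Periodic3 (fun x => G q.1 x + G q.2 x) := by
        intro i x
        simp only [G]
        rw [gfun_periodic _ _ _ i x, gfun_periodic _ _ _ i x]
      obtain ⟨δ, h1, h2⟩ := Periodic3.exists_pos_le hp
        ((gfun_contDiff _ _ _).continuous.add (gfun_contDiff _ _ _).continuous)
        (fun x => gfun_add_pos _ _ _ _ hne x)
      exact ⟨δ, h1, fun _ => h2⟩
  choose δ hδ1 hδ2 using hδ
  obtain ⟨η, hη, hηle⟩ : ∃ η : ℝ, 0 < η ∧ ∀ q, η ≤ δ q := by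
    refine ⟨∏ q, min 1 (δ q), Finset.prod_pos fun q _ => lt_min one_pos (hδ1 q), fun q => ?_⟩
    calc ∏ q, min 1 (δ q) = min 1 (δ q) * ∏ r ∈ Finset.univ.erase q, min 1 (δ r) :=
          (Finset.mul_prod_erase _ _ (Finset.mem_univ q)).symm
      _ ≤ min 1 (δ q) * 1 := by
          gcongr
          · exact (lt_min one_pos (hδ1 q)).le
          · exact Finset.prod_le_one (fun r _ => (lt_min one_pos (hδ1 r)).le)
              (fun r _ => min_le_left _ _)
      _ ≤ δ q := by rw [mul_one]; exact min_le_right _ _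
  refine ⟨fun j x => Real.smoothTransition (1 - 2 * G j x / η), ?_, ?_, ?_, ?_, ?_, ?_, ?_⟩
  · intro j
    exact Real.smoothTransition.contDiff.comp
      (contDiff_const.sub ((contDiff_const.mul (gfun_contDiff _ _ _)).div_const η))
  · intro j i x
    simp only [G]
    rw [gfun_periodic _ _ _ i x]
  · intro j x
    exact Real.smoothTransition.nonneg _
  · intro j x
    exact Real.smoothTransition.le_one _
  · intro j x s
    simp only [G]
    rw [gfun_translate (hm j) (hn j)]
  · intro i j hij x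
    have h1 := hδ2 (i, j) hij x
    have h2 := hηle (i, j)
    by_cases hi : η ≤ 2 * G i x
    · left
      apply Real.smoothTransition.zero_of_nonpos
      rw [sub_nonpos, le_div_iff₀ hη]
      linarith
    · right
      apply Real.smoothTransition.zero_of_nonpos
      rw [sub_nonpos, le_div_iff₀ hη]
      simp only at h1
      linarith
  · intro j
    obtain ⟨x, hx1, hx2⟩ := hs j (phs (2 * (e j) + 1)) (phs (2 * (e j) + 2))
    refine ⟨x, ?_⟩
    have : G j x = 0 := by
      simp only [G, gfun]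
      rw [hx1, hx2]
      simp
    simp only
    rw [this]
    simp

end Pool.Agent.H708R2.EulerModes
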